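import Pool.Agent.H614.BF.Defs

/-!
Base points of canonical systems: the points over the maximal ideals.
-/

set_option autoImplicit false
set_option linter.unusedSectionVars false
set_option linter.overlappingInstances false

open FF Module

namespace Pool.Agent.H614.BF

/-- homogenisation -/
theorem exists_hom {M : ℕ} (j1 : Fin M) (F : MvPolynomial (Fin M) ℂ) :
    ∃ (T : ℕ) (G : MvPolynomial (Fin M) ℂ), G.IsHomogeneous T ∧
      ∀ (κ : Type) [Field κ] [Algebra ℂ κ] (u : Fin M → κ), u j1 = 1 →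
        MvPolynomial.aeval u G = MvPolynomial.aeval u F := by
  classical
  refine ⟨F.totalDegree, ∑ k ∈ Finset.range (F.totalDegree + 1),
    MvPolynomial.homogeneousComponent k F * MvPolynomial.X j1 ^ (F.totalDegree - k), ?_, ?_⟩
  · refine MvPolynomial.IsHomogeneous.sum _ _ _ fun k hk => ?_
    have hk' : k ≤ F.totalDegree := by
      have := Finset.mem_range.1 hk
      omega
    have h1 := (MvPolynomial.homogeneousComponent_isHomogeneous k F).mul
      ((MvPolynomial.isHomogeneous_X ℂ j1).pow (F.totalDegree - k))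
    have h2 : k + 1 * (F.totalDegree - k) = F.totalDegree := by omega
    rwa [h2] at h1
  · intro κ _ _ u hu
    conv_rhs => rw [← MvPolynomial.sum_homogeneousComponent F]
    rw [map_sum, map_sum]
    refine Finset.sum_congr rfl fun k _ => ?_
    rw [map_mul, map_pow, MvPolynomial.aeval_X, hu, one_pow, mul_one]

/-- affine coordinates of a point -/
theorem dehom {L : Type} [Field L] [Algebra ℂ L] {M : ℕ} {y : Fin M → L} {p : Fin M → ℂ}
    (hp : IsPoint y p) {j1 : Fin M} (hj1 : p j1 ≠ 0) (hy1 : y j1 ≠ 0)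
    (F : MvPolynomial (Fin M) ℂ) (hF : MvPolynomial.aeval (fun j => y j / y j1) F = 0) :
    MvPolynomial.aeval (fun j => p j / p j1) F = 0 := by
  obtain ⟨T, G, hG, hGF⟩ := exists_hom j1 F
  have h1 : MvPolynomial.aeval y G = 0 := by
    have h2 : y = fun j => y j1 * (y j / y j1) := by
      funext j
      rw [mul_div_cancel₀ _ hy1]
    rw [h2, smul_form hG, hGF L _ (div_self hy1), hF, mul_zero]
  have h2 := hp.2 T G hG h1
  have h3 : p = fun j => p j1 * (p j / p j1) := by
    funext j
    rw [mul_div_cancel₀ _ hj1]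
  rw [h3, smul_form hG, hGF ℂ _ (div_self hj1)] at h2
  exact (mul_eq_zero.1 h2).resolve_left (pow_ne_zero _ hj1)

/-- the points over the maximal ideals -/
theorem exists_residue {L K : Type} [Field L] [Field K] [Algebra ℂ L] [Algebra ℂ K] [Algebra L K]
    [IsScalarTower ℂ L K] (O : ValuationSubring L) [Algebra O K] [IsScalarTower O L K]
    (hO : ∀ a : ℂ, algebraMap ℂ L a ∈ O) {N M : ℕ} (ξ : Fin N → K)
    (hint : ∀ i, IsIntegral O (ξ i)) (u : Fin M → L) (hu : ∀ j, u j ∈ O) (c : Fin M → ℂ)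
    (huc : ∀ j, u j - algebraMap ℂ L (c j) ∈ O.nonunits)
    (I : Ideal (Algebra.adjoin O (Set.range ξ))) (hI : I.IsMaximal) :
    ∃ (κ : Type) (_ : Field κ) (_ : Algebra ℂ κ) (q : Fin N → κ),
      (∀ G : MvPolynomial (Fin N ⊕ Fin M) ℂ,
        MvPolynomial.aeval (Sum.elim ξ fun j => algebraMap L K (u j)) G = 0 →
          MvPolynomial.aeval (Sum.elim q fun j => algebraMap ℂ κ (c j)) G = 0) ∧
      ∀ (B : MvPolynomial (Fin N) ℂ) (b : Algebra.adjoin O (Set.range ξ)),
        (b : K) = MvPolynomial.aeval ξ B → MvPolynomial.aeval q B ≠ 0 → b ∉ I := by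
  classical
  obtain ⟨ι, hι⟩ : ∃ ι : ℂ →+* Algebra.adjoin O (Set.range ξ),
      ∀ a, ι a = algebraMap O _ (⟨algebraMap ℂ L a, hO a⟩ : O) := by
    refine ⟨(algebraMap O (Algebra.adjoin O (Set.range ξ))).comp
      ((algebraMap ℂ L).codRestrict O.toSubring hO), fun a => rfl⟩
  have hιK : ∀ a, ((ι a : Algebra.adjoin O (Set.range ξ)) : K) = algebraMap ℂ K a := by
    intro a
    rw [hι]
    change algebraMap O K (⟨algebraMap ℂ L a, hO a⟩ : O) = _
    rw [IsScalarTower.algebraMap_apply O L K, IsScalarTower.algebraMap_apply ℂ L K]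
    rfl
  obtain ⟨v, hv⟩ : ∃ v : Fin N ⊕ Fin M → Algebra.adjoin O (Set.range ξ),
      v = Sum.elim (fun i => ⟨ξ i, Algebra.subset_adjoin ⟨i, rfl⟩⟩)
        (fun j => algebraMap O _ ⟨u j, hu j⟩) := ⟨_, rfl⟩
  let _ : Field (Algebra.adjoin O (Set.range ξ) ⧸ I) := Ideal.Quotient.field I
  obtain ⟨π, hπ⟩ : ∃ π : Algebra.adjoin O (Set.range ξ) →+*
      (Algebra.adjoin O (Set.range ξ) ⧸ I), π = Ideal.Quotient.mk I := ⟨_, rfl⟩
  let _ : Algebra ℂ (Algebra.adjoin O (Set.range ξ) ⧸ I) := (π.comp ι).toAlgebra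
  have hint' : Algebra.IsIntegral O (Algebra.adjoin O (Set.range ξ)) :=
    Algebra.IsIntegral.adjoin (by rintro _ ⟨i, rfl⟩; exact hint i)
  have hmax : (I.comap (algebraMap O (Algebra.adjoin O (Set.range ξ)))).IsMaximal :=
    Ideal.isMaximal_comap_of_isIntegral_of_isMaximal I
  have hmI : ∀ r ∈ IsLocalRing.maximalIdeal O,
      algebraMap O (Algebra.adjoin O (Set.range ξ)) r ∈ I := by
    intro r hr
    rw [← IsLocalRing.eq_maximalIdeal hmax] at hr
    exact hr
  have hcoe : ∀ (σ : Type) (w : σ → Algebra.adjoin O (Set.range ξ)) (G : MvPolynomial σ ℂ),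
      ((MvPolynomial.eval₂ ι w G : Algebra.adjoin O (Set.range ξ)) : K) =
        MvPolynomial.aeval (fun i => ((w i : Algebra.adjoin O (Set.range ξ)) : K)) G := by
    intro σ w G
    have h1 := MvPolynomial.eval₂_comp_left
      ((Algebra.adjoin O (Set.range ξ)).val : Algebra.adjoin O (Set.range ξ) →+* K) ι w G
    change ((Algebra.adjoin O (Set.range ξ)).val : Algebra.adjoin O (Set.range ξ) →+* K)
      (MvPolynomial.eval₂ ι w G) = _
    rw [h1, MvPolynomial.aeval_def]
    congr 1
    ext a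
    exact hιK a
  have hres : ∀ (σ : Type) (w : σ → Algebra.adjoin O (Set.range ξ)) (G : MvPolynomial σ ℂ),
      π (MvPolynomial.eval₂ ι w G) = MvPolynomial.aeval (fun i => π (w i)) G := by
    intro σ w G
    rw [MvPolynomial.eval₂_comp_left π ι w G, MvPolynomial.aeval_def]
    rfl
  refine ⟨Algebra.adjoin O (Set.range ξ) ⧸ I, inferInstance, inferInstance,
    fun i => π (v (Sum.inl i)), fun G hG => ?_, fun B b hb hB hbI => ?_⟩
  · have h1 : (Sum.elim (fun i => π (v (Sum.inl i)))
        fun j => algebraMap ℂ (Algebra.adjoin O (Set.range ξ) ⧸ I) (c j)) = fun i => π (v i) := by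
      funext i
      rcases i with i | j
      · rfl
      · change π (ι (c j)) = π (v (Sum.inr j))
        symm
        rw [← sub_eq_zero, ← map_sub, hπ, Ideal.Quotient.eq_zero_iff_mem, hv, hι]
        change algebraMap O _ (⟨u j, hu j⟩ : O) - _ ∈ I
        rw [← map_sub]
        apply hmI
        obtain ⟨h1, h2⟩ := O.mem_nonunits_iff_exists_mem_maximalIdeal.1 (huc j)
        exact h2
    rw [h1, ← hres]
    have h2 : MvPolynomial.eval₂ ι v G = 0 := by
      apply Subtype.ext
      rw [hcoe]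
      have h3 : (fun i => ((v i : Algebra.adjoin O (Set.range ξ)) : K)) =
          Sum.elim ξ fun j => algebraMap L K (u j) := by
        funext i
        rw [hv]
        rcases i with i | j
        · rfl
        · change algebraMap O K (⟨u j, hu j⟩ : O) = _
          rw [IsScalarTower.algebraMap_apply O L K]
          rfl
      rw [h3, hG]
      rfl
    rw [h2, map_zero]
  · apply hB
    have h1 : (fun i => π (v (Sum.inl i))) = fun i => π ((v ∘ Sum.inl) i) := rfl
    rw [h1, ← hres]
    have h2 : MvPolynomial.eval₂ ι (v ∘ Sum.inl) B = b := by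
      apply Subtype.ext
      rw [hcoe, hb]
      congr 2
      funext i
      rw [hv]
      rfl
    rw [h2, hπ, Ideal.Quotient.eq_zero_iff_mem]
    exact hbI

end Pool.Agent.H614.BF
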