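import Pool.Agent.H614.BF.Geo
import Pool.Agent.H614.BF.Res

/-!
The core of the theorems on base points of images.
-/

set_option autoImplicit false
set_option linter.unusedSectionVars false
set_option linter.overlappingInstances false

open FF Module Pool.Agent.W602.GT Pool.Agent.W603.LV Pool.Agent.W619.PQ Pool.Agent.Y172
open Pool.Agent.Y184.NT

namespace Pool.Agent.H614.BF

section

variable {K L : Type} [Field K] [Algebra ℂ K] [Field L] [Algebra ℂ L] [Algebra L K]
  [IsScalarTower ℂ L K] [FiniteDimensional L K] {n m N M : ℕ}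

/-- **Traces generate.** -/
theorem core {x : Fin N → K} (hx : x ≠ 0) {y : Fin M → L} (hd : Module.finrank L K ≤ m + 1)
    {p : Fin M → ℂ} (hp : IsPoint y p) {u0 : L} (hu0' : u0 ≠ 0) (S0 : Set K)
    (h1 : ∀ s ∈ S0, ∀ f : Fin m → Fin N, ∃ (e : ℕ) (A B : MvPolynomial (Fin M) ℂ),
      A.IsHomogeneous e ∧ B.IsHomogeneous e ∧ MvPolynomial.aeval p B ≠ 0 ∧
      MvPolynomial.aeval y B * Algebra.trace L K ((∏ k, x (f k)) * s) =
        MvPolynomial.aeval y A * u0)
    (h2 : ∀ (κ : Type) [Field κ] [Algebra ℂ κ] (q : Fin N → κ), IsPoint x q →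
      InGraph x y q p →
      (∀ (d : ℕ) (F : Fin M → MvPolynomial (Fin N) ℂ), (∀ j, (F j).IsHomogeneous d) →
        (∀ j k, algebraMap L K (y j) * MvPolynomial.aeval x (F k) =
          algebraMap L K (y k) * MvPolynomial.aeval x (F j)) →
        ∀ j k, MvPolynomial.aeval q (F j) * algebraMap ℂ κ (p k) =
          MvPolynomial.aeval q (F k) * algebraMap ℂ κ (p j)) →
      ∃ (e s : ℕ) (B : MvPolynomial (Fin N) ℂ) (A : Fin s → MvPolynomial (Fin N) ℂ)
        (w : Fin s → K), B.IsHomogeneous e ∧ MvPolynomial.aeval q B ≠ 0 ∧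
        (∀ i, (A i).IsHomogeneous (e + m)) ∧ (∀ i, w i ∈ S0) ∧
        MvPolynomial.aeval x B * algebraMap L K u0 = ∑ i, MvPolynomial.aeval x (A i) * w i) :
    ∃ s ∈ S0, ∃ (f : Fin m → Fin N) (e : ℕ) (A B : MvPolynomial (Fin M) ℂ),
      A.IsHomogeneous e ∧ B.IsHomogeneous e ∧ MvPolynomial.aeval p B ≠ 0 ∧
      MvPolynomial.aeval p A ≠ 0 ∧
      MvPolynomial.aeval y B * Algebra.trace L K ((∏ k, x (f k)) * s) =
        MvPolynomial.aeval y A * u0 := by
  classical
  have hcL : CharZero L := charZero_of_injective_algebraMap (algebraMap ℂ L).injective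
  by_contra hcon
  have hu0K : algebraMap L K u0 ≠ 0 := by
    rw [Ne, map_eq_zero]
    exact hu0'
  -- affine coordinates
  obtain ⟨j1, hj1⟩ : ∃ j, p j ≠ 0 := by
    by_contra hc
    push Not at hc
    exact hp.1 (funext hc)
  have hy1 : y j1 ≠ 0 := by
    intro h0
    apply hj1
    have h1 := hp.2 1 (MvPolynomial.X j1) (MvPolynomial.isHomogeneous_X ℂ j1)
      (by rw [MvPolynomial.aeval_X, h0])
    rwa [MvPolynomial.aeval_X] at h1
  obtain ⟨u, hu⟩ : ∃ u : Fin M → L, u = fun j => y j / y j1 := ⟨_, rfl⟩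
  obtain ⟨c, hc⟩ : ∃ c : Fin M → ℂ, c = fun j => p j / p j1 := ⟨_, rfl⟩
  have hyu : y = fun j => y j1 * u j := by
    funext j
    rw [hu]
    exact (mul_div_cancel₀ _ hy1).symm
  have hpc : p = fun j => p j1 * c j := by
    funext j
    rw [hc]
    exact (mul_div_cancel₀ _ hj1).symm
  obtain ⟨O, hO1, hO2⟩ := exists_val u c (fun F hF => by
    rw [hc]
    exact dehom hp hj1 hy1 F (by rw [← hu]; exact hF))
  have hO : ∀ a : ℂ, algebraMap ℂ L a ∈ O := by
    intro a
    have h1 := hO1 (MvPolynomial.C a)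
    rwa [MvPolynomial.aeval_C] at h1
  have huO : ∀ j, u j ∈ O := by
    intro j
    have h1 := hO1 (MvPolynomial.X j)
    rwa [MvPolynomial.aeval_X] at h1
  have huc : ∀ j, u j - algebraMap ℂ L (c j) ∈ O.nonunits := by
    intro j
    have h1 := hO2 (MvPolynomial.X j - MvPolynomial.C (c j)) (by
      rw [map_sub, MvPolynomial.aeval_X, MvPolynomial.aeval_C, Algebra.algebraMap_self_apply,
        sub_self])
    rwa [map_sub, MvPolynomial.aeval_X, MvPolynomial.aeval_C] at h1
  have hconst : ∀ a : ℂ, a ≠ 0 → algebraMap ℂ L a ∉ O.nonunits := by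
    intro a ha h1
    rw [O.mem_nonunits_iff_or] at h1
    rcases h1 with h1 | h1
    · rw [map_eq_zero] at h1
      exact ha h1
    · apply h1
      rw [← map_inv₀]
      exact hO _
  -- the quotients of forms at `p`
  have hquot : ∀ (e : ℕ) (A B : MvPolynomial (Fin M) ℂ), A.IsHomogeneous e → B.IsHomogeneous e →
      MvPolynomial.aeval p B ≠ 0 → MvPolynomial.aeval p A = 0 →
      MvPolynomial.aeval y A / MvPolynomial.aeval y B ∈ O.nonunits := by
    intro e A B hA hB hBp hAp
    have hAc : MvPolynomial.aeval c A = 0 := by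
      rw [hpc, smul_form hA] at hAp
      exact (mul_eq_zero.1 hAp).resolve_left (pow_ne_zero _ hj1)
    have hBc : MvPolynomial.aeval c B ≠ 0 := by
      rw [hpc, smul_form hB] at hBp
      exact (mul_ne_zero_iff.1 hBp).2
    have h1 : MvPolynomial.aeval y A / MvPolynomial.aeval y B =
        MvPolynomial.aeval u A * (MvPolynomial.aeval u B)⁻¹ := by
      conv_lhs => rw [hyu]
      rw [smul_form hA, smul_form hB, mul_div_mul_left _ _ (pow_ne_zero _ hy1), div_eq_mul_inv]
    have h2 : MvPolynomial.aeval u B ∉ O.nonunits := by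
      intro h3
      have h4 := hO2 (B - MvPolynomial.C (MvPolynomial.aeval c B)) (by
        rw [map_sub, MvPolynomial.aeval_C, Algebra.algebraMap_self_apply, sub_self])
      rw [map_sub, MvPolynomial.aeval_C] at h4
      apply hconst _ hBc
      have h5 := sub_mem h3 h4
      rwa [sub_sub_cancel] at h5
    have h3 : (MvPolynomial.aeval u B)⁻¹ ∈ O := by
      by_contra h4
      exact h2 (O.mem_nonunits_iff_or.2 (Or.inr h4))
    rw [h1, O.mem_nonunits_iff, map_mul]
    have h4 := O.mem_nonunits_iff.1 (hO2 A hAc)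
    have h5 := (O.valuation_le_one_iff _).2 h3
    exact (mul_le_mul_right h5 _).trans_lt (by rwa [mul_one])
  -- the coordinates of `V`
  obtain ⟨a, hlam, hPint⟩ := exists_form O hO x hx
  obtain ⟨lam, hlamdef⟩ : ∃ lam : K, lam = ∑ i, algebraMap ℂ K (a i) * x i := ⟨_, rfl⟩
  rw [← hlamdef] at hlam hPint
  obtain ⟨ξ, hξ⟩ : ∃ ξ : Fin N → K, ξ = fun j => x j / lam := ⟨_, rfl⟩
  have hxξ : x = fun j => lam * ξ j := by
    funext j
    rw [hξ]
    exact (mul_div_cancel₀ _ hlam).symm
  let _ : Algebra O K := ((algebraMap L K).comp (algebraMap O L)).toAlgebra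
  have _ : IsScalarTower O L K := IsScalarTower.of_algebraMap_eq fun _ => rfl
  have hint : ∀ j, IsIntegral O (ξ j) := by
    intro j
    obtain ⟨P, hP1, hP2, hP3⟩ := hPint j
    have h1 : P ∈ Polynomial.lifts (algebraMap O L) := by
      rw [Polynomial.lifts_iff_coeff_lifts]
      exact fun i => ⟨⟨_, hP2 i⟩, rfl⟩
    obtain ⟨P', hP', -, hP'm⟩ := Polynomial.lifts_and_natDegree_eq_and_monic h1 hP1
    refine ⟨P', hP'm, ?_⟩
    rw [IsScalarTower.algebraMap_eq O L K, ← Polynomial.eval₂_map, hP', hξ]
    exact hP3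
  have honeξ : ∑ i, algebraMap ℂ K (a i) * ξ i = 1 := by
    rw [hξ]
    simp only [← mul_div_assoc]
    rw [← Finset.sum_div, ← hlamdef, div_self hlam]
  have hone : (1 : K) ∈ Submodule.span O (Set.range ξ) := by
    rw [← honeξ]
    refine Submodule.sum_mem _ fun i _ => ?_
    have h1 : algebraMap ℂ K (a i) * ξ i = (⟨algebraMap ℂ L (a i), hO (a i)⟩ : O) • ξ i := by
      rw [Algebra.smul_def, IsScalarTower.algebraMap_apply O L K,
        IsScalarTower.algebraMap_apply ℂ L K]
      rfl
    rw [h1]
    exact Submodule.smul_mem _ _ (Submodule.subset_span ⟨i, rfl⟩)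
  obtain ⟨S, hS⟩ : ∃ S : Set K, S = {s | ∃ w ∈ S0, s = lam ^ m * (w / algebraMap L K u0)} :=
    ⟨_, rfl⟩
  -- the traces
  have hτ : ∀ (f : Fin m → Fin N), ∀ s ∈ S, ∃ t ∈ IsLocalRing.maximalIdeal O,
      algebraMap O L t = Algebra.trace L K ((∏ k, ξ (f k)) * s) := by
    intro f s hs
    rw [hS] at hs
    obtain ⟨w, hw, rfl⟩ := hs
    obtain ⟨e, A, B, hA, hB, hBp, hAB⟩ := h1 w hw f
    have hBy : MvPolynomial.aeval y B ≠ 0 := fun h0 => hBp (hp.2 e B hB h0)
    have hval : Algebra.trace L K ((∏ k, ξ (f k)) *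
        (lam ^ m * (w / algebraMap L K u0))) =
        MvPolynomial.aeval y A / MvPolynomial.aeval y B := by
      have h3 : (∏ k, ξ (f k)) * (lam ^ m * (w / algebraMap L K u0)) =
          u0⁻¹ • ((∏ k, x (f k)) * w) := by
        have h4 : (∏ k, x (f k)) = lam ^ m * ∏ k, ξ (f k) := by
          conv_lhs => rw [hxξ]
          rw [Finset.prod_mul_distrib, Finset.prod_const, Finset.card_univ, Fintype.card_fin]
        rw [Algebra.smul_def, map_inv₀, h4]
        field_simp
      rw [h3, map_smul, smul_eq_mul]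
      field_simp
      linear_combination hAB
    have hAp : MvPolynomial.aeval p A = 0 := by
      by_contra hAp
      exact hcon ⟨w, hw, f, e, A, B, hA, hB, hBp, hAp, hAB⟩
    obtain ⟨h5, h6⟩ := O.mem_nonunits_iff_exists_mem_maximalIdeal.1 (hquot e A B hA hB hBp hAp)
    exact ⟨⟨_, h5⟩, h6, hval.symm⟩
  -- generation
  have hgg : ∀ I : Ideal (Algebra.adjoin O (Set.range ξ)), I.IsMaximal →
      ∃ b : Algebra.adjoin O (Set.range ξ), b ∉ I ∧
        (b : K) ∈ Submodule.span (Algebra.adjoin O (Set.range ξ)) S := by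
    intro I hI
    obtain ⟨κ, _, _, q, hq1, hq2⟩ := exists_residue O hO ξ hint u huO c huc I hI
    have hj1' : algebraMap ℂ κ (p j1) ≠ 0 := by
      rw [Ne, map_eq_zero]
      exact hj1
    have hq3 : ∀ F : MvPolynomial (Fin N) ℂ, MvPolynomial.aeval ξ F = 0 →
        MvPolynomial.aeval q F = 0 := by
      intro F hF
      have h1 := hq1 (MvPolynomial.rename Sum.inl F) (by
        rw [MvPolynomial.aeval_rename, Sum.elim_comp_inl, hF])
      rwa [MvPolynomial.aeval_rename, Sum.elim_comp_inl] at h1
    have hqone : ∑ i, algebraMap ℂ κ (a i) * q i = 1 := by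
      have h1 := hq3 (∑ i, MvPolynomial.C (a i) * MvPolynomial.X i - 1) (by
        rw [map_sub, map_sum, map_one]
        simp only [map_mul, MvPolynomial.aeval_C, MvPolynomial.aeval_X]
        rw [honeξ, sub_self])
      rw [map_sub, map_sum, map_one] at h1
      simp only [map_mul, MvPolynomial.aeval_C, MvPolynomial.aeval_X] at h1
      exact sub_eq_zero.1 h1
    have hq0 : ∃ i, q i ≠ 0 := by
      by_contra hc'
      push Not at hc'
      apply one_ne_zero (α := κ)
      rw [← hqone]
      exact Finset.sum_eq_zero fun i _ => by rw [hc', mul_zero]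
    have hqpt : IsPoint x q := by
      refine ⟨fun h0 => ?_, fun e F hF hF0 => ?_⟩
      · obtain ⟨i, hi⟩ := hq0
        exact hi (congrFun h0 i)
      · apply hq3
        rw [hxξ, smul_form hF] at hF0
        exact (mul_eq_zero.1 hF0).resolve_left (pow_ne_zero _ hlam)
    have hgraph : InGraph x y q p := by
      refine ⟨fun h0 => ?_, fun e F hF hF0 => ?_⟩
      · obtain ⟨i, hi⟩ := hq0
        exact mul_ne_zero hi hj1' (congrFun h0 (i, j1))
      · have h1 : (fun ij : Fin N × Fin M => x ij.1 * algebraMap L K (y ij.2)) =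
            fun ij => (lam * algebraMap L K (y j1)) * (ξ ij.1 * algebraMap L K (u ij.2)) := by
          funext ij
          conv_lhs => rw [hxξ, hyu]
          rw [map_mul]
          ring
        rw [h1, smul_form hF] at hF0
        have hy1K : algebraMap L K (y j1) ≠ 0 := by
          rw [Ne, map_eq_zero]
          exact hy1
        have hF1 := (mul_eq_zero.1 hF0).resolve_left (pow_ne_zero _ (mul_ne_zero hlam hy1K))
        have h2 : (fun ij : Fin N × Fin M => q ij.1 * algebraMap ℂ κ (p ij.2)) =
            fun ij => algebraMap ℂ κ (p j1) * (q ij.1 * algebraMap ℂ κ (c ij.2)) := by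
          funext ij
          conv_lhs => rw [hpc]
          rw [map_mul]
          ring
        rw [h2, smul_form hF]
        have h3 := hq1 (MvPolynomial.aeval (fun ij : Fin N × Fin M =>
          (MvPolynomial.X (Sum.inl ij.1) * MvPolynomial.X (Sum.inr ij.2) :
            MvPolynomial (Fin N ⊕ Fin M) ℂ)) F) (by
          rw [MvPolynomial.comp_aeval_apply]
          simp only [map_mul, MvPolynomial.aeval_X, Sum.elim_inl, Sum.elim_inr]
          exact hF1)
        rw [MvPolynomial.comp_aeval_apply] at h3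
        simp only [map_mul, MvPolynomial.aeval_X, Sum.elim_inl, Sum.elim_inr] at h3
        rw [h3, mul_zero]
    have hpq : ∀ (d : ℕ) (F : Fin M → MvPolynomial (Fin N) ℂ), (∀ j, (F j).IsHomogeneous d) →
        (∀ j k, algebraMap L K (y j) * MvPolynomial.aeval x (F k) =
          algebraMap L K (y k) * MvPolynomial.aeval x (F j)) →
        ∀ j k, MvPolynomial.aeval q (F j) * algebraMap ℂ κ (p k) =
          MvPolynomial.aeval q (F k) * algebraMap ℂ κ (p j) := by
      intro d F hF hyF j k
      have h1 := hq1 (MvPolynomial.rename Sum.inl (F j) * MvPolynomial.X (Sum.inr k) -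
        MvPolynomial.rename Sum.inl (F k) * MvPolynomial.X (Sum.inr j)) (by
          rw [map_sub, map_mul, map_mul, MvPolynomial.aeval_rename, MvPolynomial.aeval_rename,
            Sum.elim_comp_inl, MvPolynomial.aeval_X, MvPolynomial.aeval_X, Sum.elim_inr,
            Sum.elim_inr]
          have h2 := hyF j k
          have hy1K : algebraMap L K (y j1) ≠ 0 := by
            rw [Ne, map_eq_zero]
            exact hy1
          rw [hxξ, smul_form (hF k), smul_form (hF j)] at h2
          have h3 : ∀ i, algebraMap L K (y i) = algebraMap L K (y j1) * algebraMap L K (u i) := by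
            intro i
            rw [← map_mul]
            congr 1
            exact congrFun hyu i
          rw [h3 j, h3 k] at h2
          have h4 : (algebraMap L K (y j1) * lam ^ d) * (MvPolynomial.aeval ξ (F j) *
              algebraMap L K (u k) - MvPolynomial.aeval ξ (F k) * algebraMap L K (u j)) = 0 := by
            linear_combination -h2
          exact (mul_eq_zero.1 h4).resolve_left (mul_ne_zero hy1K (pow_ne_zero _ hlam)))
      rw [map_sub, map_mul, map_mul, MvPolynomial.aeval_rename, MvPolynomial.aeval_rename,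
        Sum.elim_comp_inl, MvPolynomial.aeval_X, MvPolynomial.aeval_X, Sum.elim_inr,
        Sum.elim_inr] at h1
      have h3 : ∀ i, algebraMap ℂ κ (p i) = algebraMap ℂ κ (p j1) * algebraMap ℂ κ (c i) := by
        intro i
        rw [← map_mul]
        congr 1
        exact congrFun hpc i
      rw [h3 k, h3 j]
      linear_combination algebraMap ℂ κ (p j1) * h1
    obtain ⟨e, s, B, A, w, hB, hBq, hA, hw, hsum⟩ := h2 κ q hqpt hgraph hpq
    have hmem : ∀ G : MvPolynomial (Fin N) ℂ,
        MvPolynomial.aeval ξ G ∈ Algebra.adjoin O (Set.range ξ) := by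
      intro G
      induction G using MvPolynomial.induction_on with
      | C r =>
        rw [MvPolynomial.aeval_C]
        have h1 : algebraMap ℂ K r = algebraMap O K (⟨algebraMap ℂ L r, hO r⟩ : O) := by
          rw [IsScalarTower.algebraMap_apply O L K, IsScalarTower.algebraMap_apply ℂ L K]
          rfl
        rw [h1]
        exact Subalgebra.algebraMap_mem _ _
      | add f g hf hg =>
        rw [map_add]
        exact add_mem hf hg
      | mul_X f i hf =>
        rw [map_mul, MvPolynomial.aeval_X]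
        exact mul_mem hf (Algebra.subset_adjoin ⟨i, rfl⟩)
    refine ⟨⟨MvPolynomial.aeval ξ B, hmem B⟩, hq2 B _ rfl hBq, ?_⟩
    have h5 : MvPolynomial.aeval ξ B = ∑ i, MvPolynomial.aeval ξ (A i) *
        (lam ^ m * (w i / algebraMap L K u0)) := by
      have h6 := hsum
      rw [hxξ, smul_form hB] at h6
      have h3 : ∀ i, MvPolynomial.aeval (fun j => lam * ξ j) (A i) * w i =
          lam ^ e * algebraMap L K u0 * (MvPolynomial.aeval ξ (A i) *
            (lam ^ m * (w i / algebraMap L K u0))) := by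
        intro i
        rw [smul_form (hA i), pow_add]
        field_simp
      rw [Finset.sum_congr rfl fun i _ => h3 i, ← Finset.mul_sum] at h6
      have h4 : lam ^ e * algebraMap L K u0 ≠ 0 := mul_ne_zero (pow_ne_zero _ hlam) hu0K
      apply mul_left_cancel₀ h4
      rw [← h6]
      ring
    change MvPolynomial.aeval ξ B ∈ _
    rw [h5]
    refine Submodule.sum_mem _ fun i _ => ?_
    have h6 : MvPolynomial.aeval ξ (A i) * (lam ^ m * (w i / algebraMap L K u0)) =
        (⟨MvPolynomial.aeval ξ (A i), hmem (A i)⟩ : Algebra.adjoin O (Set.range ξ)) •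
          (lam ^ m * (w i / algebraMap L K u0)) := by
      rw [Algebra.smul_def]
      rfl
    rw [h6]
    refine Submodule.smul_mem _ _ (Submodule.subset_span ?_)
    rw [hS]
    exact ⟨w i, hw i, rfl⟩
  obtain ⟨t, ht, ht'⟩ := key ξ hint hone hd S (Algebra.trace L K) hτ hgg
  have h3 : Algebra.trace L K 1 = algebraMap ℂ L (Module.finrank L K) := by
    have h4 := Algebra.trace_algebraMap (R := L) (S := K) (1 : L)
    rw [map_one] at h4
    rw [h4, nsmul_eq_mul, mul_one, map_natCast]
  rw [h3] at ht'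
  have h4 : (Module.finrank L K : ℂ) ≠ 0 := by
    exact_mod_cast (Module.finrank_pos (R := L) (M := K)).ne'
  apply hconst _ h4
  rw [← ht']
  exact O.coe_mem_nonunits_iff.2 ht

end

end Pool.Agent.H614.BF
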