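import Mathlib

/-!
Valuation rings centred at a point, and coordinates which are integral over a valuation ring.
-/

set_option autoImplicit false

namespace Pool.Agent.H614.BF

/-- a valuation ring centred at a point -/
theorem exists_val {L : Type} [Field L] [Algebra ℂ L] {M : ℕ} (u : Fin M → L) (c : Fin M → ℂ)
    (h : ∀ F : MvPolynomial (Fin M) ℂ, MvPolynomial.aeval u F = 0 → MvPolynomial.aeval c F = 0) :
    ∃ O : ValuationSubring L, (∀ F : MvPolynomial (Fin M) ℂ, MvPolynomial.aeval u F ∈ O) ∧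
      ∀ F : MvPolynomial (Fin M) ℂ, MvPolynomial.aeval c F = 0 →
        MvPolynomial.aeval u F ∈ O.nonunits := by
  classical
  obtain ⟨f, hf⟩ : ∃ f : MvPolynomial (Fin M) ℂ →+* L, ∀ F, f F = MvPolynomial.aeval u F :=
    ⟨(MvPolynomial.aeval u : MvPolynomial (Fin M) ℂ →ₐ[ℂ] L).toRingHom, fun _ => rfl⟩
  obtain ⟨g, hg⟩ : ∃ g : MvPolynomial (Fin M) ℂ →+* ℂ, ∀ F, g F = MvPolynomial.aeval c F :=
    ⟨(MvPolynomial.aeval c : MvPolynomial (Fin M) ℂ →ₐ[ℂ] ℂ).toRingHom, fun _ => rfl⟩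
  have hI : Ideal.map f.rangeRestrict (RingHom.ker g) ≠ ⊤ := by
    intro hI
    have h1 : (1 : f.range) ∈ Ideal.map f.rangeRestrict (RingHom.ker g) := by
      rw [hI]
      exact Submodule.mem_top
    rw [Ideal.mem_map_iff_of_surjective _ f.rangeRestrict_surjective] at h1
    obtain ⟨F, hF, hF1⟩ := h1
    have h2 : f F = 1 := congrArg Subtype.val hF1
    have h3 : g F = 0 := hF
    have h4 := h (F - 1) (by rw [← hf, map_sub, h2, map_one, sub_self])
    rw [← hg, map_sub, h3, map_one, zero_sub] at h4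
    exact one_ne_zero (neg_eq_zero.1 h4)
  obtain ⟨O, hO1, hO2⟩ := Ideal.image_subset_nonunits_valuationSubring _ hI
  refine ⟨O, fun F => ?_, fun F hF => ?_⟩
  · rw [← hf]
    exact hO1 ⟨F, rfl⟩
  · rw [← hf]
    apply hO2
    refine ⟨f.rangeRestrict F, Ideal.mem_map_of_mem _ ?_, rfl⟩
    rw [RingHom.mem_ker, hg, hF]

/-- extension of a valuation ring -/
theorem exists_ext {L Ω : Type} [Field L] [Field Ω] [Algebra L Ω] (O : ValuationSubring L) :
    ∃ V : ValuationSubring Ω, ∀ z : L, algebraMap L Ω z ∈ V ↔ z ∈ O := by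
  obtain ⟨V, h, hloc⟩ := IsLocalRing.exists_factor_valuationRing
    (((algebraMap L Ω).comp O.subtype : O →+* Ω))
  refine ⟨V, fun z => ⟨fun hz => ?_, fun hz => h ⟨z, hz⟩⟩⟩
  by_contra hcon
  have hzi : z⁻¹ ∈ O := (O.mem_or_inv_mem z).resolve_left hcon
  have hz0 : z ≠ 0 := by
    rintro rfl
    exact hcon O.zero_mem
  have hu : IsUnit ((((algebraMap L Ω).comp O.subtype : O →+* Ω).codRestrict V.toSubring h)
      ⟨z⁻¹, hzi⟩) := by
    refine IsUnit.of_mul_eq_one ⟨algebraMap L Ω z, hz⟩ ?_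
    apply Subtype.ext
    change algebraMap L Ω z⁻¹ * algebraMap L Ω z = 1
    rw [← map_mul, inv_mul_cancel₀ hz0, map_one]
  have hu2 : IsUnit (⟨z⁻¹, hzi⟩ : O) := hloc.map_nonunit _ hu
  obtain ⟨w, hw⟩ := hu2.exists_right_inv
  apply hcon
  have h1 : z⁻¹ * (w : L) = 1 := congrArg Subtype.val hw
  have h2 : (w : L) = z := by
    field_simp at h1
    exact h1
  rw [← h2]
  exact w.2

/-- coordinates which are integral over a valuation ring -/
theorem exists_form {L K : Type} [Field L] [Field K] [Algebra ℂ L] [Algebra ℂ K] [Algebra L K]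
    [IsScalarTower ℂ L K] [FiniteDimensional L K] (O : ValuationSubring L)
    (hO : ∀ a : ℂ, algebraMap ℂ L a ∈ O) {N : ℕ} (x : Fin N → K) (hx : x ≠ 0) :
    ∃ a : Fin N → ℂ, (∑ i, algebraMap ℂ K (a i) * x i) ≠ 0 ∧
      ∀ j, ∃ P : Polynomial L, P.Monic ∧ (∀ i, P.coeff i ∈ O) ∧
        Polynomial.aeval (x j / ∑ i, algebraMap ℂ K (a i) * x i) P = 0 := by
  classical
  have hcL : CharZero L := charZero_of_injective_algebraMap (algebraMap ℂ L).injective
  obtain ⟨V, hV⟩ := exists_ext (Ω := AlgebraicClosure K) O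
  obtain ⟨j0, hj0⟩ : ∃ j, x j ≠ 0 := by
    by_contra hcon
    push Not at hcon
    exact hx (funext hcon)
  have : Nonempty (Fin N) := ⟨j0⟩
  have hVC : ∀ a : ℂ, algebraMap ℂ (AlgebraicClosure K) a ∈ V := by
    intro a
    have h1 : algebraMap ℂ (AlgebraicClosure K) a =
        algebraMap L (AlgebraicClosure K) (algebraMap ℂ L a) := by
      rw [IsScalarTower.algebraMap_apply ℂ K (AlgebraicClosure K),
        IsScalarTower.algebraMap_apply ℂ L K, ← IsScalarTower.algebraMap_apply L K]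
    rw [h1, hV]
    exact hO a
  -- the maximal coordinate
  have hmax : ∀ σ : K →ₐ[L] AlgebraicClosure K, ∃ i0 : Fin N,
      σ (x i0) ≠ 0 ∧ ∀ i, σ (x i) / σ (x i0) ∈ V := by
    intro σ
    obtain ⟨i0, hi0⟩ := Finite.exists_max (fun i => V.valuation (σ (x i)))
    have h0 : σ (x i0) ≠ 0 := by
      intro h0
      have h1 := hi0 j0
      rw [h0, map_zero, le_zero_iff, map_eq_zero, map_eq_zero] at h1
      exact hj0 h1
    refine ⟨i0, h0, fun i => ?_⟩
    rw [← V.valuation_le_one_iff, map_div₀]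
    exact div_le_one_of_le₀ (hi0 i) zero_le
  choose i0 hi0 hc using hmax
  obtain ⟨φ, hφ⟩ : ∃ φ : ℂ →+* IsLocalRing.ResidueField V,
      ∀ a, φ a = IsLocalRing.residue V ⟨algebraMap ℂ (AlgebraicClosure K) a, hVC a⟩ := by
    refine ⟨(IsLocalRing.residue V).comp
      ((algebraMap ℂ (AlgebraicClosure K)).codRestrict V.toSubring hVC), fun a => rfl⟩
  obtain ⟨p, hp⟩ : ∃ p : (K →ₐ[L] AlgebraicClosure K) → Polynomial (IsLocalRing.ResidueField V),
      ∀ σ, p σ = ∑ i : Fin N, Polynomial.C (IsLocalRing.residue V ⟨_, hc σ i⟩) *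
        Polynomial.X ^ (i : ℕ) := ⟨_, fun _ => rfl⟩
  have hp0 : ∀ σ, p σ ≠ 0 := by
    intro σ h0
    have h1 : (p σ).coeff (i0 σ) = 0 := by rw [h0, Polynomial.coeff_zero]
    rw [hp, Polynomial.finsetSum_coeff, Finset.sum_eq_single (i0 σ)] at h1
    · rw [Polynomial.coeff_C_mul, Polynomial.coeff_X_pow_self, mul_one] at h1
      have h2 : (⟨_, hc σ (i0 σ)⟩ : V) = 1 := Subtype.ext (div_self (hi0 σ))
      rw [h2, map_one] at h1
      exact one_ne_zero h1
    · intro b _ hb
      rw [Polynomial.coeff_C_mul, Polynomial.coeff_X_pow, if_neg, mul_zero]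
      intro h
      exact hb (Fin.ext h.symm)
    · intro h
      exact absurd (Finset.mem_univ _) h
  obtain ⟨t, ht⟩ : ∃ t : ℂ, ∀ σ, (p σ).eval (φ t) ≠ 0 := by
    have h1 : (∏ σ, p σ) ≠ 0 := Finset.prod_ne_zero_iff.2 fun σ _ => hp0 σ
    by_contra hcon
    push Not at hcon
    apply h1
    refine Polynomial.eq_zero_of_infinite_isRoot _
      ((Set.infinite_range_of_injective φ.injective).mono ?_)
    rintro _ ⟨t, rfl⟩
    obtain ⟨σ, hσ⟩ := hcon t
    change (∏ σ, p σ).eval (φ t) = 0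
    rw [Polynomial.eval_prod]
    exact Finset.prod_eq_zero (Finset.mem_univ σ) hσ
  obtain ⟨lam, hlam⟩ : ∃ lam : K, lam = ∑ i : Fin N, algebraMap ℂ K (t ^ (i : ℕ)) * x i :=
    ⟨_, rfl⟩
  -- the quotient is a unit
  have hunit : ∀ σ : K →ₐ[L] AlgebraicClosure K, σ lam ≠ 0 ∧ σ (x (i0 σ)) / σ lam ∈ V := by
    intro σ
    have h1 : σ lam / σ (x (i0 σ)) = ∑ i : Fin N,
        algebraMap ℂ (AlgebraicClosure K) (t ^ (i : ℕ)) * (σ (x i) / σ (x (i0 σ))) := by
      rw [hlam, map_sum, Finset.sum_div]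
      refine Finset.sum_congr rfl fun i _ => ?_
      rw [map_mul, mul_div_assoc]
      congr 1
      rw [IsScalarTower.algebraMap_apply ℂ L K, AlgHom.commutes,
        IsScalarTower.algebraMap_apply L K (AlgebraicClosure K),
        ← IsScalarTower.algebraMap_apply ℂ L K, ← IsScalarTower.algebraMap_apply ℂ K]
    have h2 : σ lam / σ (x (i0 σ)) ∈ V := by
      rw [h1]
      exact sum_mem fun i _ => mul_mem (hVC _) (hc σ i)
    have h3 : IsLocalRing.residue V ⟨_, h2⟩ = (p σ).eval (φ t) := by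
      have h4 : (⟨_, h2⟩ : V) = ∑ i : Fin N,
          (⟨_, hVC (t ^ (i : ℕ))⟩ : V) * (⟨_, hc σ i⟩ : V) := by
        apply Subtype.ext
        rw [AddSubmonoidClass.coe_finsetSum]
        exact h1
      rw [h4, map_sum, hp, Polynomial.eval_finsetSum]
      refine Finset.sum_congr rfl fun i _ => ?_
      rw [map_mul, Polynomial.eval_mul, Polynomial.eval_C, Polynomial.eval_pow,
        Polynomial.eval_X, ← map_pow, hφ, mul_comm]
    have h5 : IsUnit (⟨_, h2⟩ : V) := by
      by_contra hn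
      apply ht σ
      rw [← h3, IsLocalRing.residue_eq_zero_iff]
      exact (IsLocalRing.mem_maximalIdeal _).2 hn
    obtain ⟨w, hw⟩ := h5.exists_right_inv
    have h6 : σ lam / σ (x (i0 σ)) * (w : AlgebraicClosure K) = 1 := congrArg Subtype.val hw
    have h7 : σ lam ≠ 0 := by
      intro h0
      rw [h0, zero_div, zero_mul] at h6
      exact zero_ne_one h6
    refine ⟨h7, ?_⟩
    have h8 : σ (x (i0 σ)) / σ lam = w := by
      have := hi0 σ
      field_simp at h6 ⊢
      exact h6.symm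
    rw [h8]
    exact w.2
  have hσ0 : Nonempty (K →ₐ[L] AlgebraicClosure K) :=
    ⟨IsScalarTower.toAlgHom L K (AlgebraicClosure K)⟩
  have hlam0 : lam ≠ 0 := by
    obtain ⟨σ⟩ := hσ0
    intro h0
    apply (hunit σ).1
    rw [h0, map_zero]
  refine ⟨fun i => t ^ (i : ℕ), by rw [← hlam]; exact hlam0, fun j => ?_⟩
  rw [← hlam]
  have hconj : ∀ σ : K →ₐ[L] AlgebraicClosure K, σ (x j / lam) ∈ V := by
    intro σ
    have h1 : σ (x j / lam) = σ (x j) / σ (x (i0 σ)) * (σ (x (i0 σ)) / σ lam) := by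
      rw [map_div₀, div_mul_div_cancel₀ (hi0 σ)]
    rw [h1]
    exact mul_mem (hc σ j) (hunit σ).2
  have hint : IsIntegral L (x j / lam) := Algebra.IsIntegral.isIntegral _
  refine ⟨minpoly L (x j / lam), minpoly.monic hint, fun i => ?_, minpoly.aeval _ _⟩
  rw [← hV]
  have h1 : (minpoly L (x j / lam)).map (algebraMap L (AlgebraicClosure K)) ∈
      Polynomial.lifts V.subtype := by
    have h2 := (IsAlgClosed.splits ((minpoly L (x j / lam)).map
      (algebraMap L (AlgebraicClosure K)))).eq_prod_roots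
    rw [((minpoly.monic hint).map _).leadingCoeff, Polynomial.C_1, one_mul] at h2
    rw [h2]
    refine multiset_prod_mem _ fun q hq => ?_
    obtain ⟨r, hr, rfl⟩ := Multiset.mem_map.1 hq
    have h3 : r ∈ (minpoly L (x j / lam)).rootSet (AlgebraicClosure K) := by
      rw [Polynomial.mem_rootSet]
      refine ⟨minpoly.ne_zero hint, ?_⟩
      rw [Polynomial.mem_roots'] at hr
      have h4 := hr.2
      rw [Polynomial.IsRoot, Polynomial.eval_map_algebraMap] at h4
      exact h4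
    rw [← Algebra.IsAlgebraic.range_eval_eq_rootSet_minpoly] at h3
    obtain ⟨σ, hσ⟩ := h3
    rw [Polynomial.lifts_iff_coeff_lifts]
    have h5 : r ∈ V := by
      rw [← hσ]
      exact hconj σ
    have h6 : (Polynomial.X - Polynomial.C r : Polynomial (AlgebraicClosure K)) =
        (Polynomial.X - Polynomial.C (⟨r, h5⟩ : V)).map V.subtype := by
      rw [Polynomial.map_sub, Polynomial.map_X, Polynomial.map_C]
      rfl
    intro k
    rw [h6, Polynomial.coeff_map]
    exact ⟨_, rfl⟩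
  rw [Polynomial.lifts_iff_coeff_lifts] at h1
  obtain ⟨w, hw⟩ := h1 i
  rw [Polynomial.coeff_map] at hw
  rw [← hw]
  exact w.2

end Pool.Agent.H614.BF
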