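import Pool.Agent.H614.BF.Filt
import Pool.Agent.H614.BF.Val

/-!
The key lemma on traces over a valuation ring.
-/

set_option autoImplicit false

namespace Pool.Agent.H614.BF

open Submodule

section

variable {R L K : Type} [CommRing R] [IsDomain R] [ValuationRing R] [Field L] [Field K]
  [Algebra R L] [IsFractionRing R L] [Algebra L K] [Algebra R K] [IsScalarTower R L K]
  [FiniteDimensional L K]

/-- The functional `τ` has values in the maximal ideal on everything, if it has such values on the
products of monomials of degree `m` with the elements of `S`, and if the elements of `S` generate. -/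
theorem key {N m : ℕ} (ξ : Fin N → K) (hint : ∀ i, IsIntegral R (ξ i))
    (hone : (1 : K) ∈ span R (Set.range ξ)) (hd : Module.finrank L K ≤ m + 1)
    (S : Set K) (τ : K →ₗ[L] L)
    (hτ : ∀ (f : Fin m → Fin N), ∀ s ∈ S, ∃ t ∈ IsLocalRing.maximalIdeal R,
      algebraMap R L t = τ ((∏ k, ξ (f k)) * s))
    (hgg : ∀ I : Ideal (Algebra.adjoin R (Set.range ξ)), I.IsMaximal →
      ∃ b : Algebra.adjoin R (Set.range ξ), b ∉ I ∧
        (b : K) ∈ Submodule.span (Algebra.adjoin R (Set.range ξ)) S) :
    ∃ t ∈ IsLocalRing.maximalIdeal R, algebraMap R L t = τ 1 := by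
  classical
  obtain ⟨T, hT⟩ : ∃ T : Submodule R K, ∀ z, z ∈ T ↔
      ∃ t ∈ IsLocalRing.maximalIdeal R, algebraMap R L t = τ z := by
    refine ⟨{ carrier := {z | ∃ t ∈ IsLocalRing.maximalIdeal R, algebraMap R L t = τ z}
              zero_mem' := ⟨0, zero_mem _, by rw [map_zero, map_zero]⟩
              add_mem' := ?_
              smul_mem' := ?_ }, fun z => Iff.rfl⟩
    · rintro a b ⟨t, ht, hta⟩ ⟨s, hs, hsb⟩
      exact ⟨t + s, add_mem ht hs, by rw [map_add, hta, hsb, map_add]⟩
    · rintro c z ⟨t, ht, htz⟩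
      refine ⟨c * t, Ideal.mul_mem_left _ _ ht, ?_⟩
      rw [map_mul, htz, ← algebraMap_smul L c z, map_smul, smul_eq_mul]
  have h1 : ∀ s ∈ S, ∀ c ∈ Algebra.adjoin R (Set.range ξ), c * s ∈ T := by
    intro s hs c hc
    have h2 : c ∈ (span R (Set.range ξ)) ^ m := filt (L := L) ξ hint hone hd hc
    rw [Submodule.span_pow] at h2
    refine Submodule.span_induction (p := fun c _ => c * s ∈ T) ?_ ?_ ?_ ?_ h2
    · intro c hc
      obtain ⟨f, hf⟩ := Set.mem_pow.1 hc
      choose g hg using fun k => (f k).2
      obtain ⟨t, ht, ht'⟩ := hτ g s hs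
      rw [hT]
      refine ⟨t, ht, ?_⟩
      rw [ht', ← hf, List.prod_ofFn]
      congr 2
      exact Finset.prod_congr rfl fun k _ => hg k
    · rw [zero_mul]
      exact zero_mem _
    · intro a b _ _ ha hb
      rw [add_mul]
      exact add_mem ha hb
    · intro a b _ hb
      rw [smul_mul_assoc]
      exact T.smul_mem a hb
  have h2 : ∀ z ∈ Submodule.span (Algebra.adjoin R (Set.range ξ)) S,
      ∀ c ∈ Algebra.adjoin R (Set.range ξ), c * z ∈ T := by
    intro z hz
    refine Submodule.span_induction
      (p := fun z _ => ∀ c ∈ Algebra.adjoin R (Set.range ξ), c * z ∈ T) ?_ ?_ ?_ ?_ hz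
    · exact fun s hs c hc => h1 s hs c hc
    · intro c _
      rw [mul_zero]
      exact zero_mem _
    · intro a b _ _ ha hb c hc
      rw [mul_add]
      exact add_mem (ha c hc) (hb c hc)
    · intro a b _ hb c hc
      have h3 : c * (a • b) = (c * (a : K)) * b := by
        rw [Algebra.smul_def, mul_assoc]
        rfl
      rw [h3]
      exact hb _ (mul_mem hc a.2)
  have h3 : Submodule.comap (LinearMap.toSpanSingleton (Algebra.adjoin R (Set.range ξ)) K 1)
      (Submodule.span (Algebra.adjoin R (Set.range ξ)) S) = ⊤ := by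
    by_contra hne
    obtain ⟨I, hI, hle⟩ := Ideal.exists_le_maximal _ hne
    obtain ⟨b, hb, hb'⟩ := hgg I hI
    apply hb
    apply hle
    rw [Submodule.mem_comap, LinearMap.toSpanSingleton_apply, Algebra.smul_def, mul_one]
    exact hb'
  have h4 : (1 : K) ∈ Submodule.span (Algebra.adjoin R (Set.range ξ)) S := by
    have h5 : (1 : Algebra.adjoin R (Set.range ξ)) ∈ Submodule.comap
        (LinearMap.toSpanSingleton (Algebra.adjoin R (Set.range ξ)) K 1)
        (Submodule.span (Algebra.adjoin R (Set.range ξ)) S) := by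
      rw [h3]
      exact Submodule.mem_top
    rw [Submodule.mem_comap, LinearMap.toSpanSingleton_apply, one_smul] at h5
    exact h5
  have h5 := h2 1 h4 1 (one_mem _)
  rw [mul_one] at h5
  exact (hT 1).1 h5

end

end Pool.Agent.H614.BF
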