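import Pool.Agent.H614.MM.Fin
import Pool.Agent.H614.BF.Key

/-!
Base points of canonical systems: definitions.
-/

set_option autoImplicit false

open FF Pool.Agent.W602.GT

namespace Pool.Agent.H614.BF

section

variable {K : Type} [Field K] [Algebra ℂ K] {n N : ℕ}

/-- `q` is a point, with coordinates in `κ`, of the projective variety with generic point `x` -/
def IsPoint {ι : Type} (x : ι → K) {κ : Type} [Field κ] [Algebra ℂ κ] (q : ι → κ) : Prop :=
  q ≠ 0 ∧ ∀ (e : ℕ) (F : MvPolynomial ι ℂ), F.IsHomogeneous e →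
    MvPolynomial.aeval x F = 0 → MvPolynomial.aeval q F = 0

/-- the closure of the centre of `P` contains `q` -/
def Through (P : Place ℂ K) (x : Fin N → K) {κ : Type} [Field κ] [Algebra ℂ κ]
    (q : Fin N → κ) : Prop :=
  ∀ (e : ℕ) (B : MvPolynomial (Fin N) ℂ), B.IsHomogeneous e → MvPolynomial.aeval q B ≠ 0 →
    ∀ i, x i ≠ 0 → P.ord (MvPolynomial.aeval x B) ≤ e * P.ord (x i)

/-- `θ` is a canonical form which is regular at `q` -/
def RegularAt (x : Fin N → K) {κ : Type} [Field κ] [Algebra ℂ κ] (q : Fin N → κ)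
    (θ : (Fin n → Derivation ℂ K K) → K) : Prop :=
  IsPluri 1 θ ∧ ∀ P : Place ℂ K, Divisorial n P → Through P x q → RegAt P θ

/-- `ω` is a section of `K_V - m H` -/
def IsSection (m : ℕ) (x : Fin N → K) (ω : (Fin n → Derivation ℂ K K) → K) : Prop :=
  IsPluri 1 ω ∧ ∀ (f : Fin m → Fin N) (P : Place ℂ K), Divisorial n P →
    RegAt P (fun D => (∏ k, x (f k)) * ω D)

/-- `K_V - m H` is generated by global sections at `q` -/
def GeneratedAt (n m : ℕ) (x : Fin N → K) {κ : Type} [Field κ] [Algebra ℂ κ]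
    (q : Fin N → κ) : Prop :=
  ∀ θ : (Fin n → Derivation ℂ K K) → K, RegularAt x q θ →
    ∃ (e s : ℕ) (B : MvPolynomial (Fin N) ℂ) (A : Fin s → MvPolynomial (Fin N) ℂ)
      (ω : Fin s → (Fin n → Derivation ℂ K K) → K),
      B.IsHomogeneous e ∧ MvPolynomial.aeval q B ≠ 0 ∧ (∀ i, (A i).IsHomogeneous (e + m)) ∧
      (∀ i, IsSection m x (ω i)) ∧
      ∀ D, MvPolynomial.aeval x B * θ D = ∑ i, MvPolynomial.aeval x (A i) * ω i D

/-- `η` generates the canonical sheaf at `p` -/
def Generator (x : Fin N → K) {κ : Type} [Field κ] [Algebra ℂ κ] (p : Fin N → κ)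
    (η : (Fin n → Derivation ℂ K K) → K) : Prop :=
  RegularAt x p η ∧ (∃ D, η D ≠ 0) ∧ ∀ θ : (Fin n → Derivation ℂ K K) → K, RegularAt x p θ →
    ∃ (e : ℕ) (A B : MvPolynomial (Fin N) ℂ), A.IsHomogeneous e ∧ B.IsHomogeneous e ∧
      MvPolynomial.aeval p B ≠ 0 ∧
      ∀ D, MvPolynomial.aeval x B * θ D = MvPolynomial.aeval x A * η D

end

section

variable {K L : Type} [Field K] [Algebra ℂ K] [Field L] [Algebra ℂ L] [Algebra L K] {N M : ℕ}

/-- the rational map is defined at `q` -/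
def Defined (x : Fin N → K) (y : Fin M → L) {κ : Type} [Field κ] [Algebra ℂ κ]
    (q : Fin N → κ) : Prop :=
  ∃ (e : ℕ) (F : Fin M → MvPolynomial (Fin N) ℂ), (∀ j, (F j).IsHomogeneous e) ∧
    (∀ j k, algebraMap L K (y j) * MvPolynomial.aeval x (F k) =
      algebraMap L K (y k) * MvPolynomial.aeval x (F j)) ∧
    ∃ j, MvPolynomial.aeval q (F j) ≠ 0

/-- `(q, p)` is a point of the closure of the graph -/
def InGraph (x : Fin N → K) (y : Fin M → L) {κ : Type} [Field κ] [Algebra ℂ κ]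
    (q : Fin N → κ) (p : Fin M → ℂ) : Prop :=
  IsPoint (fun ij : Fin N × Fin M => x ij.1 * algebraMap L K (y ij.2))
    (fun ij : Fin N × Fin M => q ij.1 * algebraMap ℂ κ (p ij.2))

end

/-- forms at a multiple of a point -/
theorem smul_form {κ ι : Type} [Field κ] [Algebra ℂ κ] [Fintype ι] {F : MvPolynomial ι ℂ} {e : ℕ}
    (hF : F.IsHomogeneous e) (c : κ) (y : ι → κ) :
    MvPolynomial.aeval (fun l => c * y l) F = c ^ e * MvPolynomial.aeval y F := by
  classical
  rw [MvPolynomial.aeval_def, MvPolynomial.eval₂_eq', MvPolynomial.aeval_def,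
    MvPolynomial.eval₂_eq', Finset.mul_sum]
  refine Finset.sum_congr rfl fun a ha => ?_
  have h1 : ∑ i, a i = e := by
    have h2 := hF (MvPolynomial.mem_support_iff.1 ha)
    rw [← h2, Finsupp.weight_apply, Finsupp.sum_fintype _ _ fun i => by simp]
    simp
  simp only [mul_pow, Finset.prod_mul_distrib]
  rw [Finset.prod_pow_eq_pow_sum, h1]
  ring

/-- polynomials in regular functions are regular -/
theorem reg_aeval {K : Type} [Field K] [Algebra ℂ K] {ι : Type} (P : Place ℂ K) (u : ι → K)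
    (hu : ∀ i, P.Reg (u i)) (F : MvPolynomial ι ℂ) : P.Reg (MvPolynomial.aeval u F) := by
  induction F using MvPolynomial.induction_on with
  | C a =>
    rw [MvPolynomial.aeval_C]
    exact P.reg_const a
  | add p q hp hq =>
    rw [map_add]
    exact P.reg_add hp hq
  | mul_X p i hp =>
    rw [map_mul, MvPolynomial.aeval_X]
    exact P.reg_mul hp (hu i)

/-- lower bound for the order of a form -/
theorem exists_min {K : Type} [Field K] [Algebra ℂ K] {N : ℕ} (P : Place ℂ K) (x : Fin N → K)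
    (hx : ∃ j, x j ≠ 0) : ∃ i, x i ≠ 0 ∧ ∀ (e : ℕ) (F : MvPolynomial (Fin N) ℂ),
      F.IsHomogeneous e → MvPolynomial.aeval x F ≠ 0 →
        e * P.ord (x i) ≤ P.ord (MvPolynomial.aeval x F) := by
  classical
  obtain ⟨j, hj⟩ := hx
  have hne : (Finset.univ.filter fun i : Fin N => x i ≠ 0).Nonempty :=
    ⟨j, Finset.mem_filter.2 ⟨Finset.mem_univ _, hj⟩⟩
  obtain ⟨i, hi, hmin⟩ := Finset.exists_min_image _ (fun i => P.ord (x i)) hne
  have hi0 : x i ≠ 0 := (Finset.mem_filter.1 hi).2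
  refine ⟨i, hi0, fun e F hF hF0 => ?_⟩
  have h1 : MvPolynomial.aeval x F = x i ^ e * MvPolynomial.aeval (fun l => x l / x i) F := by
    rw [← smul_form hF]
    congr 2
    funext l
    rw [mul_div_cancel₀ _ hi0]
  have h2 : P.Reg (MvPolynomial.aeval (fun l => x l / x i) F) := by
    refine reg_aeval P _ (fun l => ?_) F
    by_cases hl : x l = 0
    · rw [hl, zero_div]
      exact P.reg_zero
    · right
      rw [P.ord_div hl hi0]
      have := hmin l (Finset.mem_filter.2 ⟨Finset.mem_univ _, hl⟩)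
      change P.ord (x i) ≤ P.ord (x l) at this
      omega
  have h3 : MvPolynomial.aeval (fun l => x l / x i) F ≠ 0 := by
    intro h0
    rw [h0, mul_zero] at h1
    exact hF0 h1
  rw [h1, P.ord_mul (pow_ne_zero _ hi0) h3, P.ord_pow]
  have h4 := (P.reg_iff h3).1 h2
  omega

end Pool.Agent.H614.BF
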