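import Mathlib

/-!
Finite algebras over a valuation ring which are generated by few monomials.
-/

set_option autoImplicit false

namespace Pool.Agent.H614.BF

open Submodule

section

variable {R L K ι : Type} [CommRing R] [IsDomain R] [ValuationRing R] [Field L] [Field K]
  [Algebra R L] [IsFractionRing R L] [Algebra L K] [Algebra R K] [IsScalarTower R L K]

/-- scaling coefficients into the valuation ring -/
theorem exists_scale {s : Type} [Fintype s] (a : s → L) (h : ∃ i, a i ≠ 0) :
    ∃ (i0 : s) (b : s → R), a i0 ≠ 0 ∧ b i0 = 1 ∧ ∀ i, a i = a i0 * algebraMap R L (b i) := by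
  classical
  obtain ⟨i1, hi1⟩ := h
  have : Nonempty s := ⟨i1⟩
  obtain ⟨i0, hi0⟩ := Finite.exists_max (fun i => ValuationRing.valuation R L (a i))
  have h0 : a i0 ≠ 0 := by
    intro h0
    have h1 := hi0 i1
    rw [h0, map_zero, le_zero_iff, map_eq_zero] at h1
    exact hi1 h1
  have hex : ∀ i, ∃ b : R, algebraMap R L b = a i / a i0 := by
    intro i
    rw [← ValuationRing.mem_integer_iff, Valuation.mem_integer_iff, map_div₀]
    exact div_le_one_of_le₀ (hi0 i) zero_le
  choose b hb using hex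
  refine ⟨i0, fun i => if i = i0 then 1 else b i, h0, if_pos rfl, fun i => ?_⟩
  change a i = a i0 * algebraMap R L (if i = i0 then 1 else b i)
  by_cases hi : i = i0
  · rw [if_pos hi, map_one, mul_one, hi]
  · rw [if_neg hi, hb, mul_div_cancel₀ _ h0]

/-- linear independence from a filtration -/
theorem indep_filt {s : ℕ} (c : Fin s → K) (A : ℕ → Submodule R K) (hA : Monotone A)
    (hm : ∀ r ∈ IsLocalRing.maximalIdeal R, ∀ i, r • c i ∈ A 0)
    (h1 : ∀ i : Fin s, c i ∈ A (i + 1)) (h2 : ∀ i : Fin s, c i ∉ A i) :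
    LinearIndependent L c := by
  classical
  rw [Fintype.linearIndependent_iff]
  intro a ha
  by_contra hcon
  push Not at hcon
  obtain ⟨i0, b, h0, hb1, hb⟩ := exists_scale (R := R) a hcon
  have hsum : ∑ i, b i • c i = 0 := by
    have h3 : a i0 • ∑ i, b i • c i = 0 := by
      rw [← ha, Finset.smul_sum]
      refine Finset.sum_congr rfl fun i _ => ?_
      rw [hb i, mul_smul, algebraMap_smul]
    exact (smul_eq_zero.1 h3).resolve_left h0
  have hne : (Finset.univ.filter fun i : Fin s => IsUnit (b i)).Nonempty :=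
    ⟨i0, by rw [Finset.mem_filter, hb1]; exact ⟨Finset.mem_univ _, isUnit_one⟩⟩
  obtain ⟨j, hj, hjmax⟩ := Finset.exists_max_image _ (fun i : Fin s => i) hne
  rw [Finset.mem_filter] at hj
  obtain ⟨v, hv⟩ := hj.2
  have hcj : b j • c j ∈ A j := by
    rw [← Finset.add_sum_erase _ _ (Finset.mem_univ j)] at hsum
    rw [eq_neg_of_add_eq_zero_left hsum]
    refine neg_mem (Submodule.sum_mem _ fun i hi => ?_)
    by_cases hu : IsUnit (b i)
    · have hle : i ≤ j := hjmax i (Finset.mem_filter.2 ⟨Finset.mem_univ _, hu⟩)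
      have hlt : (i : ℕ) + 1 ≤ j := by
        have := lt_of_le_of_ne hle (Finset.ne_of_mem_erase hi)
        exact this
      exact Submodule.smul_mem _ _ (hA hlt (h1 i))
    · exact hA (Nat.zero_le _) (hm _ ((IsLocalRing.mem_maximalIdeal _).2 hu) i)
  apply h2 j
  have h4 : (↑v⁻¹ : R) • (b j • c j) = c j := by
    rw [← mul_smul, ← hv, Units.inv_mul, one_smul]
  rw [← h4]
  exact Submodule.smul_mem _ _ hcj

end

section

variable {R L K ι : Type} [CommRing R] [IsDomain R] [ValuationRing R] [Field L] [Field K]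
  [Algebra R L] [IsFractionRing R L] [Algebra L K] [Algebra R K] [IsScalarTower R L K]
  [FiniteDimensional L K]

/-- **The algebra generated by the integral elements `ξ i`, one of whose linear combinations is `1`,
is generated as a module by the monomials of degree `m`, if the degree of the field extension is at
most `m + 1`.** -/
theorem filt [Finite ι] (ξ : ι → K) (hint : ∀ i, IsIntegral R (ξ i))
    (hone : (1 : K) ∈ span R (Set.range ξ)) {m : ℕ} (hd : Module.finrank L K ≤ m + 1) :
    (Algebra.adjoin R (Set.range ξ)).toSubmodule ≤ (span R (Set.range ξ)) ^ m := by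
  classical
  obtain ⟨G, hG⟩ : ∃ G : Submodule R K, G = span R (Set.range ξ) := ⟨_, rfl⟩
  obtain ⟨C, hC⟩ : ∃ C : Submodule R K, C = (Algebra.adjoin R (Set.range ξ)).toSubmodule :=
    ⟨_, rfl⟩
  obtain ⟨I, hI⟩ : ∃ I : Ideal R, I = IsLocalRing.maximalIdeal R := ⟨_, rfl⟩
  rw [← hG] at hone ⊢
  rw [← hC]
  have hmulC : ∀ a b : K, a ∈ C → b ∈ C → a * b ∈ C := by
    intro a b ha hb
    rw [hC] at ha hb ⊢
    exact mul_mem (S := Subalgebra R K) ha hb
  have honeC : (1 : K) ∈ C := by
    rw [hC]
    exact one_mem (Algebra.adjoin R (Set.range ξ))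
  have hGC : G ≤ C := by
    rw [hG, hC, span_le]
    exact Algebra.subset_adjoin
  have hpow : ∀ j, G ^ j ≤ C := by
    intro j
    induction j with
    | zero =>
      rw [pow_zero, Submodule.one_le]
      exact honeC
    | succ j ih =>
      rw [pow_succ, Submodule.mul_le]
      exact fun a ha b hb => hmulC a b (ih ha) (hGC hb)
  have hmono1 : ∀ j, G ^ j ≤ G ^ (j + 1) := by
    intro j x hx
    rw [pow_succ]
    have h1 := Submodule.mul_mem_mul hx hone
    rwa [mul_one] at h1
  have hmono : Monotone fun j => G ^ j := monotone_nat_of_le_succ hmono1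
  -- everything is in some power
  have hex : ∀ z ∈ C, ∃ j, z ∈ G ^ j := by
    intro z hz
    rw [hC, Subalgebra.mem_toSubmodule] at hz
    induction hz using Algebra.adjoin_induction with
    | mem x hx =>
      refine ⟨1, ?_⟩
      rw [pow_one, hG]
      exact subset_span hx
    | algebraMap r =>
      refine ⟨0, ?_⟩
      rw [pow_zero]
      exact Submodule.mem_one.2 ⟨r, rfl⟩
    | add x y _ _ hx hy =>
      obtain ⟨i, hi⟩ := hx
      obtain ⟨j, hj⟩ := hy
      exact ⟨max i j, add_mem (hmono (le_max_left _ _) hi) (hmono (le_max_right _ _) hj)⟩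
    | mul x y _ _ hx hy =>
      obtain ⟨i, hi⟩ := hx
      obtain ⟨j, hj⟩ := hy
      exact ⟨i + j, by rw [pow_add]; exact Submodule.mul_mem_mul hi hj⟩
  obtain ⟨N0, hN0⟩ : ∃ N0 : Submodule R K, N0 = I • C := ⟨_, rfl⟩
  have hN0C : ∀ z ∈ N0, ∀ c ∈ C, z * c ∈ N0 := by
    intro z hz c hc
    rw [hN0] at hz ⊢
    refine Submodule.smul_induction_on hz (fun r hr w hw => ?_) fun x y hx hy => ?_
    · rw [smul_mul_assoc]
      exact Submodule.smul_mem_smul hr (hmulC _ _ hw hc)
    · rw [add_mul]
      exact add_mem hx hy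
  have hfg : C.FG := by
    rw [hC]
    refine fg_adjoin_of_finite (Set.finite_range ξ) ?_
    rintro _ ⟨i, rfl⟩
    exact hint i
  have hnak : ∀ N : Submodule R K, C ≤ N ⊔ N0 → C ≤ N := by
    intro N hN
    rw [hN0] at hN
    refine Submodule.le_of_le_smul_of_le_jacobson_bot hfg ?_ hN
    rw [hI, IsLocalRing.jacobson_eq_maximalIdeal ⊥ bot_ne_top]
  -- stabilisation
  have hstab : ∀ j, G ^ (j + 1) ≤ G ^ j ⊔ N0 → C ≤ G ^ j ⊔ N0 := by
    intro j hj
    have h1 : ∀ i, G ^ i ≤ G ^ j ⊔ N0 := by
      intro i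
      induction i with
      | zero => exact (hmono (Nat.zero_le j)).trans le_sup_left
      | succ i ih =>
        rw [pow_succ, Submodule.mul_le]
        intro a ha g hg
        obtain ⟨u, hu, v, hv, rfl⟩ := Submodule.mem_sup.1 (ih ha)
        rw [add_mul]
        refine add_mem (hj ?_) (le_sup_right (a := G ^ j) (hN0C v hv g (hGC hg)))
        rw [pow_succ]
        exact Submodule.mul_mem_mul hu hg
    intro z hz
    obtain ⟨i, hi⟩ := hex z hz
    exact h1 i hi
  by_contra hcon
  have hnot : ∀ j ≤ m, ¬ G ^ (j + 1) ≤ G ^ j ⊔ N0 := by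
    intro j hj h
    apply hcon
    exact hnak _ ((hstab j h).trans (sup_le_sup_right (hmono hj) N0))
  have hone0 : (1 : K) ∉ N0 := by
    intro h
    apply hcon
    refine hnak _ fun z hz => ?_
    have h1 := hN0C 1 h z hz
    rw [one_mul] at h1
    exact le_sup_right (a := G ^ m) h1
  obtain ⟨A, hA0, hA1⟩ : ∃ A : ℕ → Submodule R K, A 0 = N0 ∧ ∀ j, A (j + 1) = G ^ j ⊔ N0 :=
    ⟨fun j => Nat.casesOn j N0 fun j => G ^ j ⊔ N0, rfl, fun _ => rfl⟩
  have hAmono : Monotone A := by
    refine monotone_nat_of_le_succ fun j => ?_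
    cases j with
    | zero => rw [hA0, hA1]; exact le_sup_right
    | succ j => rw [hA1, hA1]; exact sup_le_sup_right (hmono1 j) N0
  have hc : ∀ i : Fin (m + 2), ∃ z : K, z ∈ C ∧ z ∈ A (i + 1) ∧ z ∉ A i := by
    intro i
    obtain ⟨i, hi⟩ := i
    cases i with
    | zero =>
      refine ⟨1, honeC, ?_, ?_⟩
      · rw [hA1]
        exact le_sup_left (b := N0) (by rw [pow_zero]; exact Submodule.one_le.1 le_rfl)
      · rw [hA0]
        exact hone0
    | succ i =>
      obtain ⟨z, hz, hz'⟩ := SetLike.not_le_iff_exists.1 (hnot i (by omega))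
      refine ⟨z, hpow _ hz, ?_, ?_⟩
      · rw [hA1]
        exact le_sup_left (b := N0) hz
      · rw [hA1]
        exact hz'
  choose c hcC hc1 hc2 using hc
  have hli : LinearIndependent L c := by
    refine indep_filt (R := R) c A hAmono ?_ hc1 hc2
    intro r hr i
    rw [hA0, hN0, hI]
    exact Submodule.smul_mem_smul hr (hcC i)
  have h3 := hli.fintype_card_le_finrank
  rw [Fintype.card_fin] at h3
  omega

end

end Pool.Agent.H614.BF
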