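import Pool.Agent.H614.BF.Defs
import Pool.Agent.Y184.NT.TrForm
import Pool.Agent.Y172.Cov2

/-!
Base points of canonical systems: places through points, pull-backs.
-/

set_option autoImplicit false
set_option linter.unusedSectionVars false
set_option linter.overlappingInstances false

open FF Module Pool.Agent.W602.GT Pool.Agent.W603.LV Pool.Agent.W619.PQ Pool.Agent.Y172
open Pool.Agent.Y184.NT

namespace Pool.Agent.H614.BF

section

variable {K L : Type} [Field K] [Algebra ℂ K] [Field L] [Algebra ℂ L] [Algebra L K]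
  [IsScalarTower ℂ L K] {n N M : ℕ}

/-- the place below a place through `q` passes through the image of `q` -/
theorem through_down {x : Fin N → K} {y : Fin M → L} {κ : Type} [Field κ] [Algebra ℂ κ]
    {q : Fin N → κ} (hq : IsPoint x q) {p : Fin M → ℂ} (hx : ∃ j, x j ≠ 0) {Q : Place ℂ K} {P : Place ℂ L} {e : ℕ}
    (h : Over Q P e) (hQ : Through Q x q) {d : ℕ} {F : Fin M → MvPolynomial (Fin N) ℂ}
    (hF : ∀ j, (F j).IsHomogeneous d)
    (hyF : ∀ j k, algebraMap L K (y j) * MvPolynomial.aeval x (F k) =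
      algebraMap L K (y k) * MvPolynomial.aeval x (F j)) {k0 : Fin M}
    (hk0 : MvPolynomial.aeval q (F k0) ≠ 0) (hk0x : MvPolynomial.aeval x (F k0) ≠ 0)
    (hpq : ∀ j k, MvPolynomial.aeval q (F j) * algebraMap ℂ κ (p k) =
      MvPolynomial.aeval q (F k) * algebraMap ℂ κ (p j)) (hp : p ≠ 0) : Through P y p := by
  classical
  intro e0 B hB hBp i hi
  obtain ⟨j1, hj1⟩ : ∃ j, p j ≠ 0 := by
    by_contra hcon
    push Not at hcon
    exact hp (funext hcon)
  have hj1' : algebraMap ℂ κ (p j1) ≠ 0 := by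
    rw [Ne, map_eq_zero]
    exact hj1
  obtain ⟨ρ, hρ⟩ : ∃ ρ : κ, ρ = MvPolynomial.aeval q (F j1) / algebraMap ℂ κ (p j1) := ⟨_, rfl⟩
  have hFq : ∀ j, MvPolynomial.aeval q (F j) = ρ * algebraMap ℂ κ (p j) := by
    intro j
    rw [hρ, div_mul_eq_mul_div, eq_div_iff hj1', hpq j j1]
  have hρ0 : ρ ≠ 0 := by
    intro h0
    apply hk0
    rw [hFq, h0, zero_mul]
  obtain ⟨G, hG⟩ : ∃ G : MvPolynomial (Fin N) ℂ, G = MvPolynomial.aeval F B := ⟨_, rfl⟩
  have hGh : G.IsHomogeneous (d * e0) := by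
    rw [hG]
    exact hB.aeval F hF
  have hGq : MvPolynomial.aeval q G ≠ 0 := by
    have h1 : MvPolynomial.aeval q G =
        MvPolynomial.aeval (fun j => MvPolynomial.aeval q (F j)) B := by
      rw [hG, ← MvPolynomial.comp_aeval_apply]
    rw [h1]
    have h2 : (fun j => MvPolynomial.aeval q (F j)) = fun j => ρ * algebraMap ℂ κ (p j) :=
      funext hFq
    rw [h2, smul_form hB]
    refine mul_ne_zero (pow_ne_zero _ hρ0) ?_
    have h3 := MvPolynomial.aeval_algebraMap_apply κ p B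
    rw [show (fun j => algebraMap ℂ κ (p j)) = (algebraMap ℂ κ ∘ p) from rfl, h3, Ne,
      map_eq_zero]
    exact hBp
  obtain ⟨c, hc⟩ : ∃ c : K, c = algebraMap L K (y k0) / MvPolynomial.aeval x (F k0) := ⟨_, rfl⟩
  have hyc : ∀ j, algebraMap L K (y j) = c * MvPolynomial.aeval x (F j) := by
    intro j
    rw [hc, div_mul_eq_mul_div, eq_div_iff hk0x, hyF j k0]
  have hi' : algebraMap L K (y i) ≠ 0 := by
    rw [Ne, map_eq_zero]
    exact hi
  have hc0 : c ≠ 0 := by
    intro h0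
    apply hi'
    rw [hyc, h0, zero_mul]
  have hFi : MvPolynomial.aeval x (F i) ≠ 0 := by
    intro h0
    apply hi'
    rw [hyc, h0, mul_zero]
  have hBy : algebraMap L K (MvPolynomial.aeval y B) = c ^ e0 * MvPolynomial.aeval x G := by
    have h1 : MvPolynomial.aeval x G =
        MvPolynomial.aeval (fun j => MvPolynomial.aeval x (F j)) B := by
      rw [hG, ← MvPolynomial.comp_aeval_apply]
    rw [h1, ← smul_form hB, ← MvPolynomial.aeval_algebraMap_apply]
    congr 2
    funext j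
    exact hyc j
  have he : (0 : ℤ) < e := by exact_mod_cast h.1
  obtain ⟨i1, hi1, hmin⟩ := exists_min Q x hx
  have h4 := hQ _ G hGh hGq i1 hi1
  have h5 := hmin d (F i) (hF i) hFi
  have h6 : Q.ord (algebraMap L K (y i)) = Q.ord c + Q.ord (MvPolynomial.aeval x (F i)) := by
    rw [hyc, Q.ord_mul hc0 hFi]
  by_cases hB0 : MvPolynomial.aeval x G = 0
  · exact absurd (hq.2 _ G hGh hB0) hGq
  · have h7 : Q.ord (algebraMap L K (MvPolynomial.aeval y B)) =
        e0 * Q.ord c + Q.ord (MvPolynomial.aeval x G) := by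
      rw [hBy, Q.ord_mul (pow_ne_zero _ hc0) hB0, Q.ord_pow]
    rw [h.2] at h6 h7
    push_cast at h4
    have h8 : (e : ℤ) * P.ord (MvPolynomial.aeval y B) ≤ e * (e0 * P.ord (y i)) := by
      rw [h7, show (e : ℤ) * (e0 * P.ord (y i)) = e0 * (e * P.ord (y i)) by ring, h6]
      have h9 : (0 : ℤ) ≤ e0 := Int.natCast_nonneg _
      nlinarith
    exact le_of_mul_le_mul_left h8 he

/-- pull-backs of regular forms -/
theorem pull_regular [FiniteDimensional L K] [Algebra.EssFiniteType ℂ L]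
    (hL : Algebra.trdeg ℂ L = n) {x : Fin N → K} {y : Fin M → L} {κ : Type} [Field κ]
    [Algebra ℂ κ] {q : Fin N → κ} {p : Fin M → ℂ} {η : (Fin n → Derivation ℂ L L) → L}
    (hη : RegularAt y p η) {z : Fin n → L} {E : Fin n → Derivation ℂ L L}
    (hz : IsTranscendenceBasis ℂ z) (hE : ∀ i j, E i (z j) = if i = j then 1 else 0)
    (hdown : ∀ (Q : Place ℂ K) (P : Place ℂ L) (e : ℕ), Over Q P e → Through Q x q →
      Through P y p) :
    RegularAt x q (trForm (fun j => algebraMap L K (z j)) (algebraMap L K (η E))) := by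
  refine ⟨trForm_pluri _ _, fun Q hQ hQq D hD => ?_⟩
  obtain ⟨e, P, hQP⟩ := Pool.Agent.W73.PG.PULL.exists_over' (K := L) Q
  have hP : Divisorial n P := divisorial_down hQP hQ
  obtain ⟨yP, EP, i0, hl⟩ := exists_loc hL hP
  have h1 : P.Reg (η EP) := hη.2 P hP (hdown Q P e hQP hQq) EP hl.pres
  have h2 := Pool.Agent.W73.PG.PULL.form_eq (L := K) z yP hz hl.bas E EP hE hl.dual η hη.1 D
  have h3 := Pool.Agent.Y172.pull_reg hQP hl hD (m := 1) (ω := η) (b := 0) h1
  rw [← h2, pow_one] at h3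
  have h5 : (0 : ℤ) ≤ ((1 : ℕ) : ℤ) * ((e : ℤ) - 1) + e * 0 := by
    have : (1 : ℤ) ≤ e := by exact_mod_cast hQP.1
    push_cast
    omega
  have h4 := h3.mono h5
  exact h4

end

end Pool.Agent.H614.BF
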