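import Mathlib

/-!
Finite algebras generated by monomials of bounded degree.
-/

set_option autoImplicit false
set_option linter.unusedSectionVars false

namespace Pool.Agent.H614.BF

section

variable {D : Type} [CommRing D] [Algebra ℂ D] [Module.Finite ℂ D]

theorem chain_mono (G : Submodule ℂ D) (h1 : (1 : D) ∈ G) (j : ℕ) : G ^ j ≤ G ^ (j + 1) := by
  intro x hx
  rw [pow_succ]
  have h2 := Submodule.mul_mem_mul hx h1
  rwa [mul_one] at h2

theorem chain (G : Submodule ℂ D) (h1 : (1 : D) ∈ G) {m : ℕ}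
    (hd : Module.finrank ℂ D ≤ m + 1) : ∀ j, G ^ j ≤ G ^ m := by
  classical
  have hmono : Monotone fun j => G ^ j := monotone_nat_of_le_succ (chain_mono G h1)
  have hup : ∀ i j, G ^ (i + 1) ≤ G ^ i → G ^ (i + j + 1) ≤ G ^ (i + j) := by
    intro i j h
    induction j with
    | zero => exact h
    | succ j ih =>
      have h2 : G ^ (i + (j + 1) + 1) = G ^ (i + j + 1) * G := by rw [← pow_succ]; rfl
      have h3 : G ^ (i + (j + 1)) = G ^ (i + j) * G := by rw [← pow_succ]; rfl
      rw [h2, h3]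
      exact Submodule.mul_le.2 fun a ha b hb => Submodule.mul_mem_mul (ih ha) hb
  have hst : G ^ (m + 1) ≤ G ^ m := by
    by_contra hcon
    have hnt : Nontrivial D := by
      by_contra hn
      rw [not_nontrivial_iff_subsingleton] at hn
      apply hcon
      intro x _
      rw [Subsingleton.elim x 0]
      exact zero_mem _
    have hlt : ∀ j, j ≤ m → G ^ j < G ^ (j + 1) := by
      intro j hj
      refine lt_of_le_of_ne (chain_mono G h1 j) fun h => hcon ?_
      have h2 := hup j (m - j) h.ge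
      rwa [Nat.add_sub_cancel' hj] at h2
    have hrk : ∀ j, j ≤ m + 1 → j + 1 ≤ Module.finrank ℂ (G ^ j : Submodule ℂ D) := by
      intro j
      induction j with
      | zero =>
        intro _
        have h2 : (⟨1, by rw [pow_zero]; exact Submodule.one_le.1 le_rfl⟩ :
            (G ^ 0 : Submodule ℂ D)) ≠ 0 := by
          intro h
          exact one_ne_zero (congrArg Subtype.val h)
        have h3 : Nontrivial (G ^ 0 : Submodule ℂ D) := ⟨_, _, h2⟩
        exact Module.finrank_pos
      | succ j ih =>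
        intro hj
        have h2 := ih (by omega)
        have h3 := Submodule.finrank_lt_finrank_of_lt (hlt j (by omega))
        omega
    have h2 := hrk (m + 1) le_rfl
    have h3 := Submodule.finrank_le (G ^ (m + 1) : Submodule ℂ D)
    omega
  intro j
  by_cases hj : j ≤ m
  · exact hmono hj
  · obtain ⟨i, rfl⟩ : ∃ i, j = m + i := ⟨j - m, by omega⟩
    clear hj
    induction i with
    | zero => exact le_rfl
    | succ i ih => exact (hup m i hst).trans ih

theorem adjoin_le (s : Set D) (h1 : (1 : D) ∈ Submodule.span ℂ s) {m : ℕ}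
    (hd : Module.finrank ℂ D ≤ m + 1) :
    Subalgebra.toSubmodule (Algebra.adjoin ℂ s) ≤ (Submodule.span ℂ s) ^ m := by
  intro z hz
  rw [Subalgebra.mem_toSubmodule] at hz
  have hmono : Monotone fun j => (Submodule.span ℂ s) ^ j :=
    monotone_nat_of_le_succ (chain_mono _ h1)
  have hex : ∃ j, z ∈ (Submodule.span ℂ s) ^ j := by
    induction hz using Algebra.adjoin_induction with
    | mem x hx =>
      refine ⟨1, ?_⟩
      rw [pow_one]
      exact Submodule.subset_span hx
    | algebraMap r =>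
      refine ⟨0, ?_⟩
      rw [pow_zero]
      exact Submodule.mem_one.2 ⟨r, rfl⟩
    | add x y _ _ hx hy =>
      obtain ⟨i, hi⟩ := hx
      obtain ⟨j, hj⟩ := hy
      exact ⟨max i j, add_mem (hmono (le_max_left _ _) hi) (hmono (le_max_right _ _) hj)⟩
    | mul x y _ _ hx hy =>
      obtain ⟨i, hi⟩ := hx
      obtain ⟨j, hj⟩ := hy
      exact ⟨i + j, by rw [pow_add]; exact Submodule.mul_mem_mul hi hj⟩
  obtain ⟨j, hj⟩ := hex
  exact chain _ h1 hd j hj

/-- division by units in subalgebras -/
theorem div_mem (D' : Subalgebra ℂ D) {b u : D} (hb : b ∈ D') (hbu : IsUnit b)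
    (h : b * u ∈ D') : u ∈ D' := by
  obtain ⟨f, hf⟩ : ∃ f : D' →ₗ[ℂ] D', ∀ x, ((f x : D') : D) = b * x :=
    ⟨LinearMap.mulLeft ℂ (⟨b, hb⟩ : D'), fun x => rfl⟩
  have hinj : Function.Injective f := by
    intro x y hxy
    apply Subtype.ext
    have h2 := congrArg Subtype.val hxy
    rw [hf, hf] at h2
    exact hbu.mul_left_cancel h2
  obtain ⟨c, hc⟩ := LinearMap.surjective_of_injective hinj ⟨b * u, h⟩
  have h2 := congrArg Subtype.val hc
  rw [hf] at h2
  rw [← hbu.mul_left_cancel h2]
  exact c.2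

end

section

variable {R C : Type} [CommRing R] [Algebra ℂ R] [CommRing C] [Algebra ℂ C] [Algebra R C]
  [IsScalarTower ℂ R C]

/-- the number of generators of a quotient -/
theorem quot_finite {r s : ℕ} (e : Fin r → C) (he : Submodule.span R (Set.range e) = ⊤)
    (b : Ideal R) [Module.Finite ℂ (R ⧸ b)] (hs : Module.finrank ℂ (R ⧸ b) ≤ s) :
    Module.Finite ℂ (C ⧸ b.map (algebraMap R C)) ∧
      Module.finrank ℂ (C ⧸ b.map (algebraMap R C)) ≤ r * s := by
  classical
  obtain ⟨J, hJ⟩ : ∃ J : Ideal C, J = b.map (algebraMap R C) := ⟨_, rfl⟩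
  rw [← hJ]
  have β := Module.finBasis ℂ (R ⧸ b)
  choose u hu using fun k => Ideal.Quotient.mk_surjective (β k)
  obtain ⟨v, hv⟩ : ∃ v : Fin r × Fin (Module.finrank ℂ (R ⧸ b)) → C ⧸ J,
      v = fun ik => Ideal.Quotient.mk J (algebraMap R C (u ik.2) * e ik.1) := ⟨_, rfl⟩
  have hspan : Submodule.span ℂ (Set.range v) = ⊤ := by
    rw [eq_top_iff]
    rintro z -
    obtain ⟨z, rfl⟩ := Ideal.Quotient.mk_surjective z
    have hz : z ∈ Submodule.span R (Set.range e) := by rw [he]; exact Submodule.mem_top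
    obtain ⟨c, rfl⟩ := (Submodule.mem_span_range_iff_exists_fun R).1 hz
    rw [map_sum]
    refine Submodule.sum_mem _ fun i _ => ?_
    have h1 := β.sum_repr (Ideal.Quotient.mk b (c i))
    have h2 : c i - ∑ k, (β.repr (Ideal.Quotient.mk b (c i)) k) • u k ∈ b := by
      rw [← Ideal.Quotient.eq_zero_iff_mem, map_sub, map_sum]
      rw [sub_eq_zero]
      conv_lhs => rw [← h1]
      refine Finset.sum_congr rfl fun k _ => ?_
      rw [← hu k]
      rfl
    have h3 : Ideal.Quotient.mk J (c i • e i) =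
        ∑ k, (β.repr (Ideal.Quotient.mk b (c i)) k) • v (i, k) := by
      have h4 : c i • e i - ∑ k, (β.repr (Ideal.Quotient.mk b (c i)) k) •
          (algebraMap R C (u k) * e i) ∈ J := by
        have h5 : c i • e i - ∑ k, (β.repr (Ideal.Quotient.mk b (c i)) k) •
            (algebraMap R C (u k) * e i) = algebraMap R C (c i -
              ∑ k, (β.repr (Ideal.Quotient.mk b (c i)) k) • u k) * e i := by
          rw [map_sub, map_sum, sub_mul, Finset.sum_mul, Algebra.smul_def]
          congr 1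
          refine Finset.sum_congr rfl fun k _ => ?_
          rw [Algebra.smul_def, Algebra.smul_def, map_mul,
            ← IsScalarTower.algebraMap_apply ℂ R C, mul_assoc]
        rw [h5, hJ]
        exact Ideal.mul_mem_right _ _ (Ideal.mem_map_of_mem _ h2)
      rw [← sub_eq_zero, hv]
      rw [← Ideal.Quotient.eq_zero_iff_mem, map_sub, map_sum] at h4
      exact h4
    rw [h3]
    exact Submodule.sum_mem _ fun k _ => Submodule.smul_mem _ _ (Submodule.subset_span ⟨_, rfl⟩)
  have hfin : Module.Finite ℂ (C ⧸ J) := by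
    refine ⟨?_⟩
    rw [← hspan]
    exact Submodule.fg_span (Set.finite_range v)
  refine ⟨hfin, ?_⟩
  have h1 := finrank_range_le_card (R := ℂ) v
  rw [Set.finrank, hspan, finrank_top, Fintype.card_prod, Fintype.card_fin, Fintype.card_fin] at h1
  exact h1.trans (Nat.mul_le_mul_left _ hs)

/-- **Monomials of degree `m` generate modulo `b`.** -/
theorem jet {N r s m : ℕ} (ζ : Fin N → C) (hadj : Algebra.adjoin R (Set.range ζ) = ⊤)
    (hone : (1 : C) ∈ Submodule.span ℂ (Set.range ζ))
    (e : Fin r → C) (he : Submodule.span R (Set.range e) = ⊤)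
    (hR : ∀ u : R, ∃ A B : MvPolynomial (Fin N) ℂ, IsUnit (MvPolynomial.aeval ζ B) ∧
      MvPolynomial.aeval ζ B * algebraMap R C u = MvPolynomial.aeval ζ A)
    (b : Ideal R) [Module.Finite ℂ (R ⧸ b)] (hs : Module.finrank ℂ (R ⧸ b) ≤ s)
    (hrs : r * s ≤ m + 1) (z : C) :
    ∃ v ∈ Submodule.span ℂ (Set.range fun f : Fin m → Fin N => ∏ k, ζ (f k)),
      z - v ∈ b.map (algebraMap R C) := by
  classical
  obtain ⟨hfin, hrk⟩ := quot_finite e he b hs
  obtain ⟨J, hJ⟩ : ∃ J : Ideal C, J = b.map (algebraMap R C) := ⟨_, rfl⟩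
  rw [← hJ] at hfin hrk ⊢
  obtain ⟨π, hπ⟩ : ∃ π : C →ₐ[ℂ] C ⧸ J, ∀ c, π c = Ideal.Quotient.mk J c :=
    ⟨Ideal.Quotient.mkₐ ℂ J, fun _ => rfl⟩
  obtain ⟨D', hD'⟩ : ∃ D' : Subalgebra ℂ (C ⧸ J), D' = Algebra.adjoin ℂ
    (Set.range fun i => π (ζ i)) := ⟨_, rfl⟩
  have hpoly : ∀ F : MvPolynomial (Fin N) ℂ, π (MvPolynomial.aeval ζ F) ∈ D' := by
    intro F
    rw [hD']
    induction F using MvPolynomial.induction_on with
    | C a =>
      rw [MvPolynomial.aeval_C, AlgHom.commutes]
      exact Subalgebra.algebraMap_mem _ _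
    | add p q hp hq =>
      rw [map_add, map_add]
      exact add_mem hp hq
    | mul_X p i hp =>
      rw [map_mul, MvPolynomial.aeval_X, map_mul]
      exact mul_mem hp (Algebra.subset_adjoin ⟨i, rfl⟩)
  have hRD : ∀ u : R, π (algebraMap R C u) ∈ D' := by
    intro u
    obtain ⟨A, B, hB, hAB⟩ := hR u
    refine div_mem D' (hpoly B) (hB.map π) ?_
    rw [← map_mul, hAB]
    exact hpoly A
  have hall : ∀ c : C, π c ∈ D' := by
    intro c
    have hc : c ∈ Algebra.adjoin R (Set.range ζ) := by rw [hadj]; exact Algebra.mem_top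
    induction hc using Algebra.adjoin_induction with
    | mem x hx =>
      obtain ⟨i, rfl⟩ := hx
      rw [hD']
      exact Algebra.subset_adjoin ⟨i, rfl⟩
    | algebraMap r => exact hRD r
    | add x y _ _ hx hy =>
      rw [map_add]
      exact add_mem hx hy
    | mul x y _ _ hx hy =>
      rw [map_mul]
      exact mul_mem hx hy
  have hone' : (1 : C ⧸ J) ∈ Submodule.span ℂ (Set.range fun i => π (ζ i)) := by
    have h1 := Submodule.mem_map_of_mem (f := π.toLinearMap) hone
    rw [Submodule.map_span, ← Set.range_comp] at h1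
    have h2 : π.toLinearMap 1 = 1 := map_one π
    rw [h2] at h1
    exact h1
  have h1 : π z ∈ (Submodule.span ℂ (Set.range fun i => π (ζ i))) ^ m := by
    refine adjoin_le _ hone' (hrk.trans hrs) ?_
    have h2 := hall z
    rw [hD'] at h2
    exact h2
  have h2 : (Submodule.span ℂ (Set.range fun i => π (ζ i))) ^ m ≤
      Submodule.map π.toLinearMap
        (Submodule.span ℂ (Set.range fun f : Fin m → Fin N => ∏ k, ζ (f k))) := by
    rw [Submodule.span_pow, Submodule.span_le]
    intro c hc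
    obtain ⟨f, hf⟩ := Set.mem_pow.1 hc
    choose g hg using fun k => (f k).2
    refine ⟨∏ k, ζ (g k), Submodule.subset_span ⟨g, rfl⟩, ?_⟩
    rw [← hf, List.prod_ofFn]
    change π (∏ k, ζ (g k)) = _
    rw [map_prod]
    exact Finset.prod_congr rfl fun k _ => hg k
  obtain ⟨v, hv, hvz⟩ := h2 h1
  refine ⟨v, hv, ?_⟩
  have h3 : π v = π z := hvz
  rw [hπ, hπ, Ideal.Quotient.eq] at h3
  rw [← neg_sub]
  exact neg_mem h3

end

end Pool.Agent.H614.BF
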