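import Pool.Agent.H614.BF.Jet
import Pool.Agent.H614.BF.Fuj

/-!
Adjoint line bundles on images: jets. The ring of `V` over a finite set of points of `W`.
-/

set_option autoImplicit false
set_option linter.unusedSectionVars false
set_option linter.overlappingInstances false

open FF Module Pool.Agent.W602.GT Pool.Agent.W603.LV Pool.Agent.W619.PQ Pool.Agent.Y172
open Pool.Agent.Y184.NT

namespace Pool.Agent.H614.BF

/-- the local ring of `W` at the points `p i` -/
def localRing {L : Type} [Field L] [Algebra ℂ L] {M : ℕ} {Z : Type} (y : Fin M → L)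
    (p : Z → Fin M → ℂ) : Subalgebra ℂ L where
  carrier := {u | ∃ (e : ℕ) (A B : MvPolynomial (Fin M) ℂ), A.IsHomogeneous e ∧
    B.IsHomogeneous e ∧ (∀ i, MvPolynomial.aeval (p i) B ≠ 0) ∧ MvPolynomial.aeval y B ≠ 0 ∧
    MvPolynomial.aeval y B * u = MvPolynomial.aeval y A}
  mul_mem' := by
    rintro u v ⟨e, A, B, hA, hB, hBp, hB0, h⟩ ⟨e', A', B', hA', hB', hBp', hB0', h'⟩
    refine ⟨e + e', A * A', B * B', hA.mul hA', hB.mul hB', fun i => ?_, ?_, ?_⟩
    · rw [map_mul]
      exact mul_ne_zero (hBp i) (hBp' i)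
    · rw [map_mul]
      exact mul_ne_zero hB0 hB0'
    · rw [map_mul, map_mul]
      linear_combination (MvPolynomial.aeval y B' * v) * h + MvPolynomial.aeval y A * h'
  add_mem' := by
    rintro u v ⟨e, A, B, hA, hB, hBp, hB0, h⟩ ⟨e', A', B', hA', hB', hBp', hB0', h'⟩
    refine ⟨e + e', A * B' + B * A', B * B', (hA.mul hB').add (hB.mul hA'), hB.mul hB',
      fun i => ?_, ?_, ?_⟩
    · rw [map_mul]
      exact mul_ne_zero (hBp i) (hBp' i)
    · rw [map_mul]
      exact mul_ne_zero hB0 hB0'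
    · rw [map_mul, map_add, map_mul, map_mul]
      linear_combination MvPolynomial.aeval y B' * h + MvPolynomial.aeval y B * h'
  algebraMap_mem' := by
    intro c
    refine ⟨0, MvPolynomial.C c, 1, MvPolynomial.isHomogeneous_C _ _,
      MvPolynomial.isHomogeneous_one _ _, fun i => ?_, ?_, ?_⟩
    · rw [map_one]
      exact one_ne_zero
    · rw [map_one]
      exact one_ne_zero
    · rw [map_one, one_mul, MvPolynomial.aeval_C]

theorem mem_localRing {L : Type} [Field L] [Algebra ℂ L] {M : ℕ} {Z : Type} {y : Fin M → L}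
    {p : Z → Fin M → ℂ} {u : L} : u ∈ localRing y p ↔
      ∃ (e : ℕ) (A B : MvPolynomial (Fin M) ℂ), A.IsHomogeneous e ∧
    B.IsHomogeneous e ∧ (∀ i, MvPolynomial.aeval (p i) B ≠ 0) ∧ MvPolynomial.aeval y B ≠ 0 ∧
    MvPolynomial.aeval y B * u = MvPolynomial.aeval y A := Iff.rfl

/-- the elements of the local ring are regular at the prime divisors through the points -/
theorem localRing_reg {L : Type} [Field L] [Algebra ℂ L] {M : ℕ} {Z : Type} {y : Fin M → L}
    (hy : y ≠ 0) {p : Z → Fin M → ℂ} {P : Place ℂ L} {i : Z} (hP : Through P y (p i)) {u : L}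
    (hu : u ∈ localRing y p) : P.Reg u := by
  obtain ⟨e, A, B, hA, hB, hBp, hB0, h⟩ := hu
  by_cases hu0 : u = 0
  · exact Or.inl hu0
  right
  have hye : ∃ j, y j ≠ 0 := by
    by_contra hc'
    push Not at hc'
    exact hy (funext hc')
  obtain ⟨j, hj, hmin⟩ := exists_min P y hye
  have hA0 : MvPolynomial.aeval y A ≠ 0 := by
    rw [← h]
    exact mul_ne_zero hB0 hu0
  have h1 := hmin e A hA hA0
  have h2 := hP e B hB (hBp i) j hj
  have h3 := congrArg P.ord h
  rw [P.ord_mul hB0 hu0] at h3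
  omega

section

variable {K L : Type} [Field K] [Algebra ℂ K] [Field L] [Algebra ℂ L] [Algebra L K]
  [IsScalarTower ℂ L K] {N M : ℕ} {Z : Type}

/-- the coordinate ring of `V` over the points `p i` -/
def coordRing (x : Fin N → K) (y : Fin M → L) (p : Z → Fin M → ℂ) (lam : K) :
    Subalgebra (localRing y p) K :=
  Algebra.adjoin (localRing y p) (Set.range fun j => x j / lam)

theorem poly_mem (x : Fin N → K) (y : Fin M → L) (p : Z → Fin M → ℂ) (lam : K)
    (G : MvPolynomial (Fin N) ℂ) :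
    MvPolynomial.aeval (fun j => x j / lam) G ∈ coordRing x y p lam := by
  induction G using MvPolynomial.induction_on with
  | C r =>
    rw [MvPolynomial.aeval_C, IsScalarTower.algebraMap_apply ℂ (localRing y p) K]
    exact Subalgebra.algebraMap_mem _ _
  | add f g hf hg =>
    rw [map_add]
    exact add_mem hf hg
  | mul_X f i hf =>
    rw [map_mul, MvPolynomial.aeval_X]
    exact mul_mem hf (Algebra.subset_adjoin ⟨i, rfl⟩)

/-- forms which do not vanish at the points pull back to units -/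
theorem unit_mem {x : Fin N → K} {y : Fin M → L} (hy : y ≠ 0) {p : Z → Fin M → ℂ} {lam : K}
    (hlam : lam ≠ 0) {d : ℕ} {F : Fin M → MvPolynomial (Fin N) ℂ}
    (hF : ∀ j, (F j).IsHomogeneous d)
    (hyF : ∀ j k, algebraMap L K (y j) * MvPolynomial.aeval x (F k) =
      algebraMap L K (y k) * MvPolynomial.aeval x (F j))
    {c : Fin M → K} (hc : ∀ j, c j ∈ coordRing x y p lam)
    (hcF : ∑ j, c j * MvPolynomial.aeval (fun i => x i / lam) (F j) = 1) :
    ∃ c' : K, c' ≠ 0 ∧ (∀ (e : ℕ) (A : MvPolynomial (Fin M) ℂ), A.IsHomogeneous e →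
      algebraMap L K (MvPolynomial.aeval y A) =
        c' ^ e * MvPolynomial.aeval (fun i => x i / lam) (MvPolynomial.aeval F A)) ∧
      ∀ (e : ℕ) (B : MvPolynomial (Fin M) ℂ), B.IsHomogeneous e →
        (∀ i, MvPolynomial.aeval (p i) B ≠ 0) → MvPolynomial.aeval y B ≠ 0 →
        ∃ w ∈ coordRing x y p lam,
          w * MvPolynomial.aeval (fun i => x i / lam) (MvPolynomial.aeval F B) = 1 := by
  classical
  obtain ⟨ξ, hξ⟩ : ∃ ξ : Fin N → K, ξ = fun j => x j / lam := ⟨_, rfl⟩
  have hxξ : x = fun j => lam * ξ j := by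
    funext j
    rw [hξ]
    exact (mul_div_cancel₀ _ hlam).symm
  rw [← hξ] at hcF ⊢
  obtain ⟨k0, hk0⟩ : ∃ k0, MvPolynomial.aeval ξ (F k0) ≠ 0 := by
    by_contra hcon
    push Not at hcon
    apply one_ne_zero (α := K)
    rw [← hcF]
    exact Finset.sum_eq_zero fun j _ => by rw [hcon j, mul_zero]
  obtain ⟨c', hc'⟩ : ∃ c' : K, c' = algebraMap L K (y k0) / MvPolynomial.aeval ξ (F k0) :=
    ⟨_, rfl⟩
  have hyc : ∀ j, algebraMap L K (y j) = c' * MvPolynomial.aeval ξ (F j) := by
    intro j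
    rw [hc', div_mul_eq_mul_div, eq_div_iff hk0]
    have h2 := hyF j k0
    rw [hxξ, smul_form (hF k0), smul_form (hF j)] at h2
    apply mul_left_cancel₀ (pow_ne_zero d hlam)
    linear_combination h2
  have hc0 : c' ≠ 0 := by
    intro h0
    apply hy
    funext j
    have h1 := hyc j
    rw [h0, zero_mul, map_eq_zero] at h1
    exact h1
  have hpull : ∀ (e : ℕ) (A : MvPolynomial (Fin M) ℂ), A.IsHomogeneous e →
      algebraMap L K (MvPolynomial.aeval y A) =
        c' ^ e * MvPolynomial.aeval ξ (MvPolynomial.aeval F A) := by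
    intro e A hA
    have h1 : MvPolynomial.aeval ξ (MvPolynomial.aeval F A) =
        MvPolynomial.aeval (fun j => MvPolynomial.aeval ξ (F j)) A := by
      rw [← MvPolynomial.comp_aeval_apply]
    rw [h1, ← smul_form hA, ← MvPolynomial.aeval_algebraMap_apply]
    congr 2
    funext j
    exact hyc j
  refine ⟨c', hc0, hpull, fun e B hB hBp hB0 => ?_⟩
  -- the ideal generated by the `F j`
  have hmemF : ∀ G : MvPolynomial (Fin N) ℂ, MvPolynomial.aeval ξ G ∈ coordRing x y p lam := by
    intro G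
    rw [hξ]
    exact poly_mem x y p lam G
  obtain ⟨Φ, hΦ⟩ : ∃ Φ : Fin M → coordRing x y p lam,
      ∀ j, ((Φ j : coordRing x y p lam) : K) = MvPolynomial.aeval ξ (F j) :=
    ⟨fun j => ⟨_, hmemF (F j)⟩, fun j => rfl⟩
  have hspan : Ideal.span (Set.range Φ) = ⊤ := by
    rw [Ideal.eq_top_iff_one]
    have h1 : (1 : coordRing x y p lam) = ∑ j, (⟨c j, hc j⟩ : coordRing x y p lam) * Φ j := by
      apply Subtype.ext
      rw [AddSubmonoidClass.coe_finsetSum]
      change (1 : K) = ∑ j, c j * ((Φ j : coordRing x y p lam) : K)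
      rw [← hcF]
      exact Finset.sum_congr rfl fun j _ => by rw [hΦ]
    rw [h1]
    exact Submodule.sum_mem _ fun j _ => Ideal.mul_mem_left _ _ (Ideal.subset_span ⟨j, rfl⟩)
  have hpow := Ideal.span_pow_eq_top _ hspan e
  obtain ⟨h, hh⟩ : ∃ h : coordRing x y p lam,
      ((h : coordRing x y p lam) : K) = MvPolynomial.aeval ξ (MvPolynomial.aeval F B) :=
    ⟨⟨_, hmemF _⟩, rfl⟩
  have hle : Ideal.span ((fun x => x ^ e) '' Set.range Φ) ≤ Ideal.span {h} := by
    rw [Ideal.span_le]
    rintro _ ⟨_, ⟨j, rfl⟩, rfl⟩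
    change Φ j ^ e ∈ Ideal.span {h}
    rw [Ideal.mem_span_singleton']
    obtain ⟨ρ, hρ⟩ : ∃ ρ : localRing y p, ((ρ : localRing y p) : L) =
        y j ^ e / MvPolynomial.aeval y B := by
      refine ⟨⟨_, e, MvPolynomial.X j ^ e, B, ?_, hB, hBp, hB0, ?_⟩, rfl⟩
      · have h1 := (MvPolynomial.isHomogeneous_X ℂ j).pow e
        rwa [one_mul] at h1
      · rw [map_pow, MvPolynomial.aeval_X, mul_div_cancel₀ _ hB0]
    refine ⟨algebraMap (localRing y p) (coordRing x y p lam) ρ, ?_⟩
    apply Subtype.ext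
    change algebraMap L K ((ρ : localRing y p) : L) * ((h : coordRing x y p lam) : K) =
      ((Φ j : coordRing x y p lam) : K) ^ e
    rw [hρ, hh, hΦ, map_div₀, map_pow, hpull e B hB, hyc j, mul_pow]
    have h1 : MvPolynomial.aeval ξ (MvPolynomial.aeval F B) ≠ 0 := by
      intro h0
      have h2 := hpull e B hB
      rw [h0, mul_zero, map_eq_zero] at h2
      exact hB0 h2
    have h2 : c' ^ e ≠ 0 := pow_ne_zero _ hc0
    field_simp
  rw [hpow] at hle
  have h1 : (1 : coordRing x y p lam) ∈ Ideal.span {h} := hle Submodule.mem_top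
  obtain ⟨w, hw⟩ := Ideal.mem_span_singleton'.1 h1
  refine ⟨(w : K), w.2, ?_⟩
  rw [← hh]
  have h2 := congrArg Subtype.val hw
  exact h2

end

end Pool.Agent.H614.BF
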