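import Pool.Agent.H614.BF.Jet2

/-!
Adjoint line bundles on images: jets.
-/

set_option autoImplicit false
set_option linter.unusedSectionVars false
set_option linter.overlappingInstances false

open FF Module Pool.Agent.W602.GT Pool.Agent.W603.LV Pool.Agent.W619.PQ Pool.Agent.Y172
open Pool.Agent.Y184.NT

namespace Pool.Agent.H614.BF

section

variable {K L : Type} [Field K] [Algebra ℂ K] [Field L] [Algebra ℂ L] [Algebra L K]
  [IsScalarTower ℂ L K] {n m N M : ℕ} {Z : Type}

theorem coe_aeval (x : Fin N → K) (y : Fin M → L) (p : Z → Fin M → ℂ) (lam : K)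
    {ζ : Fin N → coordRing x y p lam} (hζ : ∀ i, ((ζ i : coordRing x y p lam) : K) = x i / lam)
    (G : MvPolynomial (Fin N) ℂ) :
    ((MvPolynomial.aeval ζ G : coordRing x y p lam) : K) =
      MvPolynomial.aeval (fun j => x j / lam) G := by
  induction G using MvPolynomial.induction_on with
  | C r =>
    rw [MvPolynomial.aeval_C, MvPolynomial.aeval_C]
    rfl
  | add f g hf hg =>
    rw [map_add, map_add, ← hf, ← hg]
    rfl
  | mul_X f i hf =>
    rw [map_mul, map_mul, MvPolynomial.aeval_X, MvPolynomial.aeval_X, ← hf, ← hζ]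
    rfl

/-- common denominators -/
theorem common_denom {y : Fin M → L} {p : Z → Fin M → ℂ} {t : Fin n → L}
    (ht : ∀ j, t j ∈ localRing y p) :
    ∃ (e : ℕ) (H : MvPolynomial (Fin M) ℂ) (G : Fin n → MvPolynomial (Fin M) ℂ),
      H.IsHomogeneous e ∧ (∀ j, (G j).IsHomogeneous e) ∧
      (∀ i, MvPolynomial.aeval (p i) H ≠ 0) ∧ MvPolynomial.aeval y H ≠ 0 ∧
      ∀ j, MvPolynomial.aeval y H * t j = MvPolynomial.aeval y (G j) := by
  classical
  choose e A B hA hB hBp hB0 hAB using fun j => mem_localRing.1 (ht j)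
  refine ⟨∑ j, e j, ∏ j, B j, fun j => A j * ∏ k ∈ Finset.univ.erase j, B k, ?_, fun j => ?_,
    fun i => ?_, ?_, fun j => ?_⟩
  · exact MvPolynomial.IsHomogeneous.prod _ _ _ fun j _ => hB j
  · have h1 := (hA j).mul (MvPolynomial.IsHomogeneous.prod (Finset.univ.erase j) B e
      fun k _ => hB k)
    rwa [Finset.add_sum_erase _ _ (Finset.mem_univ j)] at h1
  · rw [map_prod]
    exact Finset.prod_ne_zero_iff.2 fun j _ => hBp j i
  · rw [map_prod]
    exact Finset.prod_ne_zero_iff.2 fun j _ => hB0 j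
  · rw [map_mul, ← hAB j, ← Finset.mul_prod_erase _ _ (Finset.mem_univ j), map_mul]
    ring

end

section

variable {K L : Type} [Field K] [Algebra ℂ K] [Field L] [Algebra ℂ L] [Algebra L K]
  [IsScalarTower ℂ L K] [FiniteDimensional L K] {n m N M : ℕ} {Z : Type}

/-- sections of the adjoint bundle by traces, general form -/
theorem trace_section [Algebra.EssFiniteType ℂ K] (hK : Algebra.trdeg ℂ K = n) {x : Fin N → K}
    (a : Place ℂ L → ℤ) {φ : K} {z : Fin n → L} {E : Fin n → Derivation ℂ L L}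
    (hz : IsTranscendenceBasis ℂ z) (hE : ∀ i j, E i (z j) = if i = j then 1 else 0)
    {E' : Fin n → Derivation ℂ K K}
    (hE' : ∀ i f, E' i (algebraMap L K f) = algebraMap L K (E i f))
    (V : (Fin (n + 1) → Fin N) → K) (P : Place ℂ L) (hP : Divisorial n P)
    (hV : ∀ (Q : Place ℂ K) (e : ℕ), Over Q P e → Divisorial n Q →
      ∀ (I : Fin (n + 1) → Fin N) (D : Fin n → Derivation ℂ K K), (∀ i, DerReg Q (D i)) →
        Ge Q (-(e * a P)) (V I * (φ⁻¹ * wr (fun b => x (I b)) D))) :
    SectionAt a P (pForm 1 z (Algebra.trace L K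
      (∑ I, V I * (φ⁻¹ * wr (fun b => x (I b)) E')))) := by
  classical
  have hessL : Algebra.EssFiniteType ℂ L := Pool.Agent.TH466.QG.ess_below (K := K)
  have hL : Algebra.trdeg ℂ L = n := Pool.Agent.Y184.NT.trdeg_below (K := K) hK
  obtain ⟨t, ht0, ht1⟩ := P.surj
  obtain ⟨g, hg0, hg⟩ : ∃ g : L, g ≠ 0 ∧ P.ord g = a P := by
    refine ⟨t ^ (a P), zpow_ne_zero _ ht0, ?_⟩
    rw [P.ord_zpow, ht1, mul_one]
  obtain ⟨W, hW⟩ : ∃ W : (Fin n → Derivation ℂ K K) → K,
      W = fun D => algebraMap L K g * ∑ I, V I * (φ⁻¹ * wr (fun b => x (I b)) D) := ⟨_, rfl⟩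
  have hWp : IsPluri 1 W := by
    intro A D
    rw [hW]
    change algebraMap L K g * ∑ I, V I * (φ⁻¹ * wr (fun b => x (I b))
      (fun i => ∑ j, A i j • D j)) = A.det ^ 1 * (algebraMap L K g * ∑ I, V I *
        (φ⁻¹ * wr (fun b => x (I b)) D))
    rw [Finset.mul_sum, Finset.mul_sum, Finset.mul_sum]
    refine Finset.sum_congr rfl fun I _ => ?_
    rw [wr_pluri (fun b => x (I b)) A D]
    ring
  have h1 := trace_regular hL hz hE hE' W hWp P hP (fun Q e hQP hQ => by
    intro P' e' hQP' D hD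
    have h4 : Ge Q (e * a P) (algebraMap L K g) := by
      right
      rw [hQP.2, hg]
    have h5 : Ge Q (-(e * a P)) (∑ I, V I * (φ⁻¹ * wr (fun b => x (I b)) D)) :=
      Ge.sum _ _ fun I _ => hV Q e hQP hQ I D hD
    have h6 := h4.mul h5
    have h7 : ((1 : ℕ) : ℤ) - 1 = 0 := by norm_num
    rw [h7, zero_mul, hW]
    rw [add_neg_cancel] at h6
    exact h6)
  intro D hD
  have h2 := h1 D hD
  obtain ⟨T, hT⟩ : ∃ T : K, T = ∑ I, V I * (φ⁻¹ * wr (fun b => x (I b)) E') := ⟨_, rfl⟩
  rw [hW] at h2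
  have h3 : Algebra.trace L K (algebraMap L K g * T) = g * Algebra.trace L K T := by
    rw [← Algebra.smul_def, map_smul, smul_eq_mul]
  change P.Reg (pForm 1 z (Algebra.trace L K (algebraMap L K g *
    ∑ I, V I * (φ⁻¹ * wr (fun b => x (I b)) E'))) D) at h2
  rw [← hT] at h2 ⊢
  rw [h3] at h2
  unfold pForm at h2 ⊢
  rcases h2 with h2 | h2
  · left
    have h4 : g * ((Matrix.of fun i j => D i (z j) : Matrix (Fin n) (Fin n) L).det ^ 1 *
        Algebra.trace L K T) = 0 := by
      rw [← h2]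
      ring
    exact (mul_eq_zero.1 h4).resolve_left hg0
  · by_cases h0 : (Matrix.of fun i j => D i (z j) : Matrix (Fin n) (Fin n) L).det ^ 1 *
        Algebra.trace L K T = 0
    · exact Or.inl h0
    · right
      have h4 : (Matrix.of fun i j => D i (z j) : Matrix (Fin n) (Fin n) L).det ^ 1 *
          (g * Algebra.trace L K T) =
          g * ((Matrix.of fun i j => D i (z j) : Matrix (Fin n) (Fin n) L).det ^ 1 *
        Algebra.trace L K T) := by ring
      rw [h4, P.ord_mul hg0 h0, hg] at h2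
      omega

/-- **Jets of adjoint bundles of images.** -/
theorem jets [Algebra.EssFiniteType ℂ K] (hK : Algebra.trdeg ℂ K = n) {x : Fin N → K}
    {y : Fin M → L} (hy : y ≠ 0) {s : ℕ} (hd : Module.finrank L K * s ≤ m + 1)
    (p : Z → Fin M → ℂ) {lam : K} (hlam : lam ≠ 0) {al : Fin N → ℂ}
    (hal : lam = ∑ i, algebraMap ℂ K (al i) * x i) {e : Fin (Module.finrank L K) → K}
    (he : Subalgebra.toSubmodule (coordRing x y p lam) =
      Submodule.span (localRing y p) (Set.range e))
    {d : ℕ} {F : Fin M → MvPolynomial (Fin N) ℂ} (hF : ∀ j, (F j).IsHomogeneous d)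
    (hyF : ∀ j k, algebraMap L K (y j) * MvPolynomial.aeval x (F k) =
      algebraMap L K (y k) * MvPolynomial.aeval x (F j))
    {c : Fin M → K} (hc : ∀ j, c j ∈ coordRing x y p lam)
    (hcF : ∑ j, c j * MvPolynomial.aeval (fun i => x i / lam) (F j) = 1)
    (a : Place ℂ L → ℤ) {φ : K} (hφ : φ ≠ 0)
    (hglob : ∀ (Q : Place ℂ K) (P : Place ℂ L) (e : ℕ), Over Q P e → Divisorial n Q →
      ∀ i, x i ≠ 0 → Q.ord φ ≤ e * a P + ((m + (n + 1) : ℕ) : ℤ) * Q.ord (x i))
    {g : L} {t : Fin n → L} (ht : ∀ j, t j ∈ localRing y p)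
    (hne : ∃ D : Fin n → Derivation ℂ L L, g * (Matrix.of fun i j => D i (t j)).det ≠ 0)
    (hgen : ∀ θ : (Fin n → Derivation ℂ L L) → L, IsPluri 1 θ →
      (∀ P : Place ℂ L, Divisorial n P → (∃ i, Through P y (p i)) → SectionAt a P θ) →
      ∃ h ∈ localRing y p, ∀ D, θ D = h * (g * (Matrix.of fun i j => D i (t j)).det))
    (hφg : φ * algebraMap L K g / lam ^ (m + (n + 1)) ∈ coordRing x y p lam)
    (b : Ideal (localRing y p)) [Module.Finite ℂ (localRing y p ⧸ b)]
    (hb : Module.finrank ℂ (localRing y p ⧸ b) ≤ s) (u : localRing y p) :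
    ∃ θ : (Fin n → Derivation ℂ L L) → L, IsPluri 1 θ ∧
      (∀ P : Place ℂ L, Divisorial n P → SectionAt a P θ) ∧
      ∃ v ∈ b, ∀ D, θ D = ((u + v : localRing y p) : L) *
        (g * (Matrix.of fun i j => D i (t j)).det) := by
  classical
  have hessL : Algebra.EssFiniteType ℂ L := Pool.Agent.TH466.QG.ess_below (K := K)
  have hL : Algebra.trdeg ℂ L = n := Pool.Agent.Y184.NT.trdeg_below (K := K) hK
  have hcL : CharZero L := charZero_of_injective_algebraMap (algebraMap ℂ L).injective
  obtain ⟨z, E, hz, hE⟩ := Pool.Agent.Y172.exists_crd (k := ℂ) (K := L) hL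
  choose E' hE' using fun i => Pool.Agent.Y172.exists_lift (k := ℂ) (K := L) (L := K) hL (E i)
  obtain ⟨η, hη⟩ : ∃ η : (Fin n → Derivation ℂ L L) → L,
      η = fun D => g * (Matrix.of fun i j => D i (t j)).det := ⟨_, rfl⟩
  have hηp : IsPluri 1 η := by
    intro A D
    have h1 := pForm_pluri 1 t g A D
    unfold pForm at h1
    rw [hη]
    linear_combination h1
  have hcoord : ∀ (θ : (Fin n → Derivation ℂ L L) → L), IsPluri 1 θ → ∀ D,
      θ D = (Matrix.of fun i j => D i (z j)).det ^ 1 * θ E := fun θ hθ D =>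
    pluri_coord hz hE hθ D
  have hu0' : η E ≠ 0 := by
    obtain ⟨D, hD⟩ := hne
    intro h0
    apply hD
    have h1 := hcoord η hηp D
    rw [h0, mul_zero, hη] at h1
    exact h1
  obtain ⟨u0, hu0⟩ : ∃ u0, u0 = η E := ⟨_, rfl⟩
  rw [← hu0] at hu0'
  have hu0K : algebraMap L K u0 ≠ 0 := by
    rw [Ne, map_eq_zero]
    exact hu0'
  have hxe : ∃ j, x j ≠ 0 := by
    by_contra hc'
    push Not at hc'
    apply hlam
    rw [hal]
    exact Finset.sum_eq_zero fun i _ => by rw [hc' i, mul_zero]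
  obtain ⟨ξ, hξ⟩ : ∃ ξ : Fin N → K, ξ = fun j => x j / lam := ⟨_, rfl⟩
  have hxξ : x = fun j => lam * ξ j := by
    funext j
    rw [hξ]
    exact (mul_div_cancel₀ _ hlam).symm
  have honeξ : ∑ i, algebraMap ℂ K (al i) * ξ i = 1 := by
    rw [hξ]
    simp only [← mul_div_assoc]
    rw [← Finset.sum_div, ← hal, div_self hlam]
  obtain ⟨c', hc0, hpull, hunit⟩ := unit_mem hy hlam hF hyF hc hcF
  rw [← hξ] at hpull hunit
  have hpoly : ∀ G : MvPolynomial (Fin N) ℂ, MvPolynomial.aeval ξ G ∈ coordRing x y p lam := by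
    intro G
    rw [hξ]
    exact poly_mem x y p lam G
  -- the expansion
  obtain ⟨e1, H, G, hH, hG, hHp, hH0, hHG⟩ := common_denom ht
  obtain ⟨wH, hwH, hwH1⟩ := hunit e1 H hH hHp hH0
  obtain ⟨ell, hell⟩ : ∃ ell : MvPolynomial (Fin N) ℂ,
      ell = ∑ i, MvPolynomial.C (al i) * MvPolynomial.X i := ⟨_, rfl⟩
  have hellh : ell.IsHomogeneous 1 := by
    rw [hell]
    refine MvPolynomial.IsHomogeneous.sum _ _ _ fun i _ => ?_
    have h1 := (MvPolynomial.isHomogeneous_C (Fin N) (al i)).mul
      (MvPolynomial.isHomogeneous_X ℂ i)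
    rwa [zero_add] at h1
  have hellx : MvPolynomial.aeval x ell = lam := by
    rw [hell, map_sum, hal]
    refine Finset.sum_congr rfl fun i _ => ?_
    rw [map_mul, MvPolynomial.aeval_C, MvPolynomial.aeval_X]
  obtain ⟨Fh, hFh⟩ : ∃ Fh : Fin (n + 1) → MvPolynomial (Fin N) ℂ, Fh = fun b =>
      (Fin.cons (MvPolynomial.aeval F H) (fun j => MvPolynomial.aeval F (G j)) :
        Fin (n + 1) → MvPolynomial (Fin N) ℂ) b * ell := ⟨_, rfl⟩
  have hFhh : ∀ b, (Fh b).IsHomogeneous (d * e1 + 1) := by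
    intro b
    rw [hFh]
    refine Fin.cases ?_ (fun j => ?_) b
    · exact (hH.aeval F hF).mul hellh
    · exact ((hG j).aeval F hF).mul hellh
  obtain ⟨AI, hAI, hexp⟩ := wr_expand (K := K) (n := n) x Fh hFhh
  have hxform : ∀ (k : ℕ) (T : MvPolynomial (Fin N) ℂ), T.IsHomogeneous k →
      MvPolynomial.aeval x T = lam ^ k * MvPolynomial.aeval ξ T := by
    intro k T hT
    conv_lhs => rw [hxξ]
    exact smul_form hT _ _
  have htK : ∀ j, MvPolynomial.aeval ξ (MvPolynomial.aeval F H) * algebraMap L K (t j) =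
      MvPolynomial.aeval ξ (MvPolynomial.aeval F (G j)) := by
    intro j
    have h2 := congrArg (algebraMap L K) (hHG j)
    rw [map_mul, hpull e1 H hH, hpull e1 (G j) (hG j)] at h2
    apply mul_left_cancel₀ (pow_ne_zero e1 hc0)
    linear_combination h2
  have hdet : MvPolynomial.aeval x (Fh 0) ^ (n + 1) * algebraMap L K
      (Matrix.of fun i j => E i (t j) : Matrix (Fin n) (Fin n) L).det =
      wr (fun b => MvPolynomial.aeval x (Fh b)) E' := by
    have h1 : algebraMap L K (Matrix.of fun i j => E i (t j) : Matrix (Fin n) (Fin n) L).det =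
        wr (Fin.cons 1 fun j => algebraMap L K (t j)) E' := by
      rw [wr_one, RingHom.map_det]
      congr 1
      ext i j
      rw [RingHom.mapMatrix_apply, Matrix.map_apply, Matrix.of_apply, Matrix.of_apply, hE']
    rw [h1, ← wr_smul]
    congr 1
    funext b
    refine Fin.cases ?_ (fun j => ?_) b
    · rw [Fin.cons_zero, mul_one]
    · rw [Fin.cons_succ, hFh]
      simp only [Fin.cons_zero, Fin.cons_succ, map_mul]
      rw [hxform _ _ (hH.aeval F hF), hxform _ _ ((hG j).aeval F hF), ← htK j]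
      ring
  -- the elements `μ`
  obtain ⟨μ, hμ⟩ : ∃ μ : (Fin (n + 1) → Fin N) → K, μ = fun I =>
      lam ^ m * (φ⁻¹ * wr (fun b => x (I b)) E') / algebraMap L K u0 := ⟨_, rfl⟩
  obtain ⟨b0, hb0⟩ : ∃ b0 : K, b0 = φ * algebraMap L K g / lam ^ (m + (n + 1)) := ⟨_, rfl⟩
  rw [← hb0] at hφg
  obtain ⟨κ, hκ⟩ : ∃ κ : ℂ, κ = ((d * e1 : ℕ) : ℂ) + 1 := ⟨_, rfl⟩
  have hκ0 : κ ≠ 0 := by
    rw [hκ]
    exact_mod_cast Nat.succ_ne_zero (d * e1)
  have hκK : algebraMap ℂ K κ = ((d * e1 : ℕ) : K) + 1 := by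
    rw [hκ, map_add, map_natCast, map_one]
  have hκK0 : algebraMap ℂ K κ ≠ 0 := by
    rw [Ne, map_eq_zero]
    exact hκ0
  have hrel : algebraMap ℂ K κ *
      MvPolynomial.aeval ξ (MvPolynomial.aeval F H) ^ (n + 1) =
      ∑ I, (MvPolynomial.aeval ξ (AI I) * b0) * μ I := by
    have h1 := hexp E'
    rw [← hdet, ← hκK] at h1
    have h2 : MvPolynomial.aeval x (Fh 0) =
        lam ^ (d * e1 + 1) * MvPolynomial.aeval ξ (MvPolynomial.aeval F H) := by
      rw [hFh]
      simp only [Fin.cons_zero, map_mul]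
      rw [hxform _ _ (hH.aeval F hF), hellx]
      ring
    have h3 : ∑ I, MvPolynomial.aeval x (AI I) * wr (fun b => x (I b)) E' =
        lam ^ ((n + 1) * (d * e1)) * ∑ I, MvPolynomial.aeval ξ (AI I) *
          wr (fun b => x (I b)) E' := by
      rw [Finset.mul_sum]
      refine Finset.sum_congr rfl fun I _ => ?_
      rw [hxform _ _ (hAI I)]
      ring
    rw [h2, h3] at h1
    obtain ⟨S1, hS1⟩ : ∃ S1 : K, S1 = ∑ I, MvPolynomial.aeval ξ (AI I) *
          wr (fun b => x (I b)) E' := ⟨_, rfl⟩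
    rw [← hS1] at h1
    obtain ⟨δ, hδ⟩ : ∃ δ : L, δ = (Matrix.of fun i j => E i (t j) :
      Matrix (Fin n) (Fin n) L).det := ⟨_, rfl⟩
    rw [← hδ] at h1
    obtain ⟨h, hh⟩ : ∃ h : K, h = MvPolynomial.aeval ξ (MvPolynomial.aeval F H) := ⟨_, rfl⟩
    rw [← hh] at h1 ⊢
    have h4 : u0 = g * δ := by rw [hu0, hη, hδ]
    have h5 : ∑ I, (MvPolynomial.aeval ξ (AI I) * b0) * μ I =
        b0 * lam ^ m * φ⁻¹ / algebraMap L K u0 * S1 := by
      rw [hS1, Finset.mul_sum, hμ]
      refine Finset.sum_congr rfl fun I _ => ?_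
      ring
    have h6 : algebraMap ℂ K κ * (lam ^ (n + 1) * h ^ (n + 1) * algebraMap L K δ) = S1 := by
      apply mul_left_cancel₀ (pow_ne_zero ((n + 1) * (d * e1)) hlam)
      rw [← h1]
      ring
    rw [h5, ← h6, hb0, h4, map_mul]
    have h7 : algebraMap L K g ≠ 0 := by
      intro h0
      rw [h4, map_mul, h0, zero_mul] at hu0K
      exact hu0K rfl
    have h8 : algebraMap L K δ ≠ 0 := by
      intro h0
      rw [h4, map_mul, h0, mul_zero] at hu0K
      exact hu0K rfl
    field_simp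
    ring
  obtain ⟨cI, hcI⟩ : ∃ cI : (Fin (n + 1) → Fin N) → K, cI = fun I =>
      algebraMap ℂ K κ⁻¹ * wH ^ (n + 1) * (MvPolynomial.aeval ξ (AI I) * b0) := ⟨_, rfl⟩
  have hconst : ∀ r : ℂ, algebraMap ℂ K r ∈ coordRing x y p lam := by
    intro r
    have h1 := hpoly (MvPolynomial.C r)
    rwa [MvPolynomial.aeval_C] at h1
  have hcIm : ∀ I, cI I ∈ coordRing x y p lam := by
    intro I
    rw [hcI]
    exact mul_mem (mul_mem (hconst _) (pow_mem hwH _)) (mul_mem (hpoly _) hφg)
  have hone : ∑ I, cI I * μ I = 1 := by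
    have h1 : ∑ I, cI I * μ I = algebraMap ℂ K κ⁻¹ * wH ^ (n + 1) *
        ∑ I, (MvPolynomial.aeval ξ (AI I) * b0) * μ I := by
      rw [Finset.mul_sum, hcI]
      exact Finset.sum_congr rfl fun I _ => by ring
    rw [h1, ← hrel, map_inv₀]
    have h2 : (wH * MvPolynomial.aeval ξ (MvPolynomial.aeval F H)) ^ (n + 1) = 1 := by
      rw [hwH1, one_pow]
    rw [mul_pow] at h2
    calc _ = ((algebraMap ℂ K κ)⁻¹ * algebraMap ℂ K κ) *
          (wH ^ (n + 1) * MvPolynomial.aeval ξ (MvPolynomial.aeval F H) ^ (n + 1)) := by ring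
      _ = 1 := by rw [h2, inv_mul_cancel₀ hκK0, one_mul]
  -- traces of the elements of the ring
  have hFG : (Subalgebra.toSubmodule (coordRing x y p lam)).FG := by
    rw [he]
    exact Submodule.fg_span (Set.finite_range e)
  have hregC : ∀ (Q : Place ℂ K) (P : Place ℂ L) (e' : ℕ), Over Q P e' →
      (∃ i, Through P y (p i)) → ∀ w ∈ coordRing x y p lam, Q.Reg w := by
    rintro Q P e' hQP ⟨i, hi⟩ w hw
    refine Place.reg_of_isIntegral (A := localRing y p) Q (fun r => ?_)
      (IsIntegral.of_mem_of_fg _ hFG w hw)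
    have h1 := localRing_reg hy hi r.2
    change Q.Reg (algebraMap L K (r : L))
    rcases h1 with h1 | h1
    · left
      rw [h1, map_zero]
    · right
      rw [hQP.2]
      positivity
  have hlamQ : ∀ (Q : Place ℂ K) (P : Place ℂ L) (e' : ℕ), Over Q P e' → Divisorial n Q →
      Q.ord φ ≤ e' * a P + ((m + (n + 1) : ℕ) : ℤ) * Q.ord lam := by
    intro Q P e' hQP hQ
    obtain ⟨i, hi, hmin⟩ := exists_min Q x hxe
    have h1 := hmin 1 ell hellh (by rw [hellx]; exact hlam)
    rw [hellx] at h1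
    have h2 := hglob Q P e' hQP hQ i hi
    push_cast at h1 h2 ⊢
    nlinarith
  have hT : ∀ w ∈ coordRing x y p lam, ∀ I, Algebra.trace L K (w * μ I) ∈ localRing y p := by
    intro w hw I
    obtain ⟨V, hV⟩ : ∃ V : (Fin (n + 1) → Fin N) → K, V = fun I' =>
        if I' = I then w * lam ^ m else 0 := ⟨_, rfl⟩
    obtain ⟨T, hT⟩ : ∃ T : K, T = ∑ I, V I * (φ⁻¹ * wr (fun b => x (I b)) E') := ⟨_, rfl⟩
    have hTv : T = w * lam ^ m * (φ⁻¹ * wr (fun b => x (I b)) E') := by
      rw [hT, Finset.sum_eq_single I]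
      · rw [hV]
        simp
      · intro I' _ hI'
        rw [hV]
        simp [hI']
      · intro h
        exact absurd (Finset.mem_univ _) h
    obtain ⟨h, hh, hθ⟩ := hgen (pForm 1 z (Algebra.trace L K T)) (pForm_pluri 1 z _)
      (fun P hP hPp => by
        rw [hT]
        refine trace_section hK a hz hE hE' V P hP fun Q e' hQP hQ I' D hD => ?_
        rw [hV]
        by_cases hI' : I' = I
        · simp only [hI', if_true]
          have h1 : (fun b => x (I b)) = fun b => lam * ξ (I b) := by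
            funext b
            conv_lhs => rw [hxξ]
          rw [h1, wr_smul]
          have h2 : Ge Q 0 w := hregC Q P e' hQP hPp w hw
          have h3 : Ge Q 0 (wr (fun b => ξ (I b)) D) := by
            refine wr_reg Q (fun b => ?_) hD
            refine hregC Q P e' hQP hPp _ ?_
            have h4 := hpoly (MvPolynomial.X (I b))
            rwa [MvPolynomial.aeval_X] at h4
          have h4 : Ge Q (((m + (n + 1) : ℕ) : ℤ) * Q.ord lam) (lam ^ (m + (n + 1))) := by
            right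
            rw [Q.ord_pow]
          have h5 : Ge Q (- Q.ord φ) φ⁻¹ := by
            right
            rw [Q.ord_inv]
          have h6 := (h2.mul h4).mul (h5.mul h3)
          have h7 : w * lam ^ m * (φ⁻¹ * (lam ^ (n + 1) * wr (fun b => ξ (I b)) D)) =
              w * lam ^ (m + (n + 1)) * (φ⁻¹ * wr (fun b => ξ (I b)) D) := by ring
          rw [h7]
          refine h6.mono ?_
          have h8 := hlamQ Q P e' hQP hQ
          linarith
        · simp only [hI', if_false, zero_mul]
          exact Ge.zero)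
    have h1 := hθ E
    rw [pForm_frame 1 _ hE] at h1
    have h2 : g * (Matrix.of fun i j => E i (t j)).det = u0 := by rw [hu0, hη]
    rw [h2] at h1
    have h3 : w * μ I = u0⁻¹ • T := by
      rw [hTv, hμ, Algebra.smul_def, map_inv₀]
      ring
    rw [h3, map_smul, smul_eq_mul, h1]
    have h4 : u0⁻¹ * (h * u0) = h := by field_simp
    rw [h4]
    exact hh
  -- modulo `b`
  obtain ⟨ζ, hζ⟩ : ∃ ζ : Fin N → coordRing x y p lam,
      ∀ i, ((ζ i : coordRing x y p lam) : K) = x i / lam :=
    ⟨fun i => ⟨x i / lam, Algebra.subset_adjoin ⟨i, rfl⟩⟩, fun i => rfl⟩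
  have hcoe : ∀ G : MvPolynomial (Fin N) ℂ,
      ((MvPolynomial.aeval ζ G : coordRing x y p lam) : K) = MvPolynomial.aeval ξ G := by
    intro G
    rw [hξ]
    exact coe_aeval x y p lam hζ G
  have hadj : Algebra.adjoin (localRing y p) (Set.range ζ) = ⊤ := by
    have h1 := Algebra.adjoin_adjoin_coe_preimage (R := localRing y p)
      (s := Set.range fun j => x j / lam)
    have h2 : (Subtype.val ⁻¹' (Set.range fun j => x j / lam) :
        Set (Algebra.adjoin (localRing y p) (Set.range fun j => x j / lam))) = Set.range ζ := by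
      ext w
      constructor
      · rintro ⟨j, hj⟩
        refine ⟨j, Subtype.ext ?_⟩
        rw [hζ]
        exact hj
      · rintro ⟨j, rfl⟩
        exact ⟨j, (hζ j).symm⟩
    rw [h2] at h1
    exact h1
  have honeζ : (1 : coordRing x y p lam) ∈ Submodule.span ℂ (Set.range ζ) := by
    have h1 : (1 : coordRing x y p lam) = ∑ i, al i • ζ i := by
      apply Subtype.ext
      rw [AddSubmonoidClass.coe_finsetSum]
      change (1 : K) = ∑ i, ((al i • ζ i : coordRing x y p lam) : K)
      rw [← honeξ]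
      refine Finset.sum_congr rfl fun i _ => ?_
      have h2 : ((al i • ζ i : coordRing x y p lam) : K) =
          al i • ((ζ i : coordRing x y p lam) : K) := rfl
      rw [h2, hζ, Algebra.smul_def, hξ]
    rw [h1]
    exact Submodule.sum_mem _ fun i _ => Submodule.smul_mem _ _ (Submodule.subset_span ⟨i, rfl⟩)
  have hemem : ∀ i, e i ∈ coordRing x y p lam := by
    intro i
    have h1 : e i ∈ Submodule.span (localRing y p) (Set.range e) :=
      Submodule.subset_span ⟨i, rfl⟩
    rw [← he] at h1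
    exact h1
  have hspan : Submodule.span (localRing y p) (Set.range fun i =>
      (⟨e i, hemem i⟩ : coordRing x y p lam)) = ⊤ := by
    rw [eq_top_iff]
    rintro w -
    have h1 : (w : K) ∈ Submodule.span (localRing y p) (Set.range e) := by
      rw [← he]
      exact w.2
    obtain ⟨r, hr⟩ := (Submodule.mem_span_range_iff_exists_fun _).1 h1
    refine (Submodule.mem_span_range_iff_exists_fun _).2 ⟨r, Subtype.ext ?_⟩
    rw [AddSubmonoidClass.coe_finsetSum, ← hr]
    rfl
  have hR : ∀ r : localRing y p, ∃ A B : MvPolynomial (Fin N) ℂ,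
      IsUnit (MvPolynomial.aeval ζ B) ∧ MvPolynomial.aeval ζ B *
        algebraMap (localRing y p) (coordRing x y p lam) r = MvPolynomial.aeval ζ A := by
    rintro ⟨r, e2, A, B, hA, hB, hBp, hB0, hAB⟩
    obtain ⟨w, hw, hw1⟩ := hunit e2 B hB hBp hB0
    refine ⟨MvPolynomial.aeval F A, MvPolynomial.aeval F B, ?_, Subtype.ext ?_⟩
    · refine IsUnit.of_mul_eq_one ⟨w, hw⟩ (Subtype.ext ?_)
      change ((MvPolynomial.aeval ζ (MvPolynomial.aeval F B) : coordRing x y p lam) : K) * w = 1
      rw [hcoe, mul_comm, hw1]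
    · change ((MvPolynomial.aeval ζ (MvPolynomial.aeval F B) : coordRing x y p lam) : K) *
        algebraMap L K r = _
      rw [hcoe, hcoe]
      have h2 := congrArg (algebraMap L K) hAB
      rw [map_mul, hpull e2 B hB, hpull e2 A hA] at h2
      apply mul_left_cancel₀ (pow_ne_zero e2 hc0)
      linear_combination h2
  have hjet := fun w : coordRing x y p lam => jet (m := m) ζ hadj honeζ _ hspan hR b hb hd w
  have hTb : ∀ w ∈ b.map (algebraMap (localRing y p) (coordRing x y p lam)), ∀ I,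
      ∀ w' ∈ coordRing x y p lam, ∃ β ∈ b,
        ((β : localRing y p) : L) = Algebra.trace L K (w' * (w : K) * μ I) := by
    intro w hw I
    have hw0 : w ∈ Submodule.span (coordRing x y p lam)
        (algebraMap (localRing y p) (coordRing x y p lam) '' (b : Set (localRing y p))) := hw
    refine Submodule.span_induction (p := fun (w : coordRing x y p lam) _ =>
        ∀ w' ∈ coordRing x y p lam, ∃ β ∈ b,
        ((β : localRing y p) : L) = Algebra.trace L K (w' * (w : K) * μ I)) ?_ ?_ ?_ ?_ hw0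
    · rintro _ ⟨β, hβ, rfl⟩ w' hw'
      refine ⟨β * ⟨_, hT w' hw' I⟩, Ideal.mul_mem_right _ _ hβ, ?_⟩
      have h1 : w' * ((algebraMap (localRing y p) (coordRing x y p lam) β :
          coordRing x y p lam) : K) * μ I = ((β : localRing y p) : L) • (w' * μ I) := by
        rw [Algebra.smul_def]
        change w' * algebraMap L K ((β : localRing y p) : L) * μ I = _
        ring
      rw [h1, map_smul, smul_eq_mul]
      rfl
    · intro w' _
      refine ⟨0, zero_mem _, ?_⟩
      change (0 : L) = Algebra.trace L K (w' * (0 : K) * μ I)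
      rw [mul_zero, zero_mul, map_zero]
    · intro w1 w2 _ _ h1 h2 w' hw'
      obtain ⟨β1, hβ1, h1⟩ := h1 w' hw'
      obtain ⟨β2, hβ2, h2⟩ := h2 w' hw'
      refine ⟨β1 + β2, add_mem hβ1 hβ2, ?_⟩
      change (β1 : L) + (β2 : L) = Algebra.trace L K (w' * ((w1 : K) + (w2 : K)) * μ I)
      rw [h1, h2, ← map_add]
      congr 1
      ring
    · intro w1 w2 _ h2 w' hw'
      obtain ⟨β, hβ, h⟩ := h2 (w' * w1) (mul_mem hw' w1.2)
      refine ⟨β, hβ, ?_⟩
      rw [h]
      congr 1
      change w' * (w1 : K) * (w2 : K) * μ I = w' * ((w1 : K) * (w2 : K)) * μ I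
      ring
  -- the section
  have hrk : (Module.finrank L K : ℂ) ≠ 0 := by
    exact_mod_cast (Module.finrank_pos (R := L) (M := K)).ne'
  obtain ⟨zI, hzI⟩ : ∃ zI : (Fin (n + 1) → Fin N) → coordRing x y p lam, ∀ I,
      ((zI I : coordRing x y p lam) : K) =
        algebraMap ℂ K (Module.finrank L K : ℂ)⁻¹ * algebraMap L K (u : L) * cI I := by
    have hm : ∀ I, algebraMap ℂ K (Module.finrank L K : ℂ)⁻¹ * algebraMap L K (u : L) * cI I ∈
        coordRing x y p lam := by
      intro I
      refine mul_mem (mul_mem (hconst _) ?_) (hcIm I)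
      exact Subalgebra.algebraMap_mem (coordRing x y p lam) u
    exact ⟨fun I => ⟨_, hm I⟩, fun I => rfl⟩
  choose vI hvI hvI' using fun I => hjet (zI I)
  choose β hβ hβ' using fun I => hTb _ (hvI' I) I 1 (one_mem _)
  obtain ⟨V, hV⟩ : ∃ V : (Fin (n + 1) → Fin N) → K, V = fun I =>
      lam ^ m * ((vI I : coordRing x y p lam) : K) := ⟨_, rfl⟩
  obtain ⟨T, hTdef⟩ : ∃ T : K, T = ∑ I, V I * (φ⁻¹ * wr (fun b => x (I b)) E') := ⟨_, rfl⟩
  have hTval : Algebra.trace L K T = ((u + -∑ I, β I : localRing y p) : L) * u0 := by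
    have h1 : T = u0 • (∑ I, ((zI I : coordRing x y p lam) : K) * μ I -
        ∑ I, 1 * ((zI I - vI I : coordRing x y p lam) : K) * μ I) := by
      rw [← Finset.sum_sub_distrib, hTdef, Algebra.smul_def, Finset.mul_sum]
      refine Finset.sum_congr rfl fun I _ => ?_
      rw [hV, hμ]
      have h2 : ((zI I - vI I : coordRing x y p lam) : K) =
          ((zI I : coordRing x y p lam) : K) - ((vI I : coordRing x y p lam) : K) := rfl
      rw [h2]
      field_simp
      ring
    have h2 : ∑ I, ((zI I : coordRing x y p lam) : K) * μ I =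
        algebraMap ℂ K (Module.finrank L K : ℂ)⁻¹ * algebraMap L K (u : L) := by
      have h3 : ∑ I, ((zI I : coordRing x y p lam) : K) * μ I =
          algebraMap ℂ K (Module.finrank L K : ℂ)⁻¹ * algebraMap L K (u : L) *
            ∑ I, cI I * μ I := by
        rw [Finset.mul_sum]
        refine Finset.sum_congr rfl fun I _ => ?_
        rw [hzI]
        ring
      rw [h3, hone, mul_one]
    have h3 : Algebra.trace L K (algebraMap ℂ K (Module.finrank L K : ℂ)⁻¹ *
        algebraMap L K (u : L)) = (u : L) := by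
      rw [IsScalarTower.algebraMap_apply ℂ L K, ← map_mul, Algebra.trace_algebraMap,
        nsmul_eq_mul, map_inv₀, map_natCast, ← mul_assoc, mul_inv_cancel₀, one_mul]
      exact_mod_cast (Module.finrank_pos (R := L) (M := K)).ne'
    rw [h1, map_smul, map_sub, h2, h3, map_sum, smul_eq_mul]
    have h4 : ∑ I, Algebra.trace L K (1 * ((zI I - vI I : coordRing x y p lam) : K) * μ I) =
        ((∑ I, β I : localRing y p) : L) := by
      rw [AddSubmonoidClass.coe_finsetSum]
      exact Finset.sum_congr rfl fun I _ => (hβ' I).symm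
    rw [h4]
    have h5 : ((u + -∑ I, β I : localRing y p) : L) =
        (u : L) - ((∑ I, β I : localRing y p) : L) := by
      rw [← sub_eq_add_neg]
      rfl
    rw [h5]
    ring
  have hVge : ∀ (Q : Place ℂ K) (i : Fin N), (∀ j, x j ≠ 0 → Q.ord (x i) ≤ Q.ord (x j)) →
      ∀ I, Ge Q (m * Q.ord (x i)) (V I) := by
    intro Q i hmin I
    rw [hV]
    have h1 := hvI I
    refine Submodule.span_induction (p := fun w _ =>
      Ge Q (m * Q.ord (x i)) (lam ^ m * ((w : coordRing x y p lam) : K))) ?_ ?_ ?_ ?_ h1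
    · rintro _ ⟨f, rfl⟩
      have h2 : lam ^ m * ((∏ k, ζ (f k) : coordRing x y p lam) : K) = ∏ k, x (f k) := by
        have h3 : ((∏ k, ζ (f k) : coordRing x y p lam) : K) = ∏ k, (x (f k) / lam) := by
          rw [SubmonoidClass.coe_finsetProd]
          exact Finset.prod_congr rfl fun k _ => hζ _
        rw [h3, Finset.prod_div_distrib, Finset.prod_const, Finset.card_univ, Fintype.card_fin,
          mul_div_cancel₀ _ (pow_ne_zero _ hlam)]
      rw [h2]
      refine ge_prod' Q fun k => ?_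
      by_cases hk : x (f k) = 0
      · exact Or.inl hk
      · exact Or.inr (hmin _ hk)
    · change Ge Q (m * Q.ord (x i)) (lam ^ m * (0 : K))
      rw [mul_zero]
      exact Ge.zero
    · intro w1 w2 _ _ h1 h2
      change Ge Q (m * Q.ord (x i)) (lam ^ m * ((w1 : K) + (w2 : K)))
      rw [mul_add]
      exact h1.add h2
    · intro r w _ h1
      have h2 : lam ^ m * ((r • w : coordRing x y p lam) : K) =
          algebraMap ℂ K r * (lam ^ m * (w : K)) := by
        have h3 : ((r • w : coordRing x y p lam) : K) = r • (w : K) := rfl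
        rw [h3, Algebra.smul_def]
        ring
      rw [h2]
      have h3 := (Ge.const (P := Q) r).mul h1
      rwa [zero_add] at h3
  have hVsec : ∀ P : Place ℂ L, Divisorial n P → SectionAt a P
      (pForm 1 z (Algebra.trace L K T)) := by
    intro P hP
    rw [hTdef]
    refine trace_section hK a hz hE hE' V P hP fun Q e' hQP hQ I D hD => ?_
    obtain ⟨i, hi0, hmin, hwr⟩ := wr_ord (n := n) Q hxe
    have h1 := hwr I D hD
    have h2 := hVge Q i hmin I
    have h3 : Ge Q (- Q.ord φ) φ⁻¹ := by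
      right
      rw [Q.ord_inv]
    have h5 := h2.mul (h3.mul h1)
    have h7 := hglob Q P e' hQP hQ i hi0
    refine h5.mono ?_
    push_cast at h7 ⊢
    nlinarith
  refine ⟨pForm 1 z (Algebra.trace L K T), pForm_pluri 1 z _, hVsec, -∑ I, β I,
    neg_mem (Submodule.sum_mem _ fun I _ => hβ I), fun D => ?_⟩
  have h1 : g * (Matrix.of fun i j => D i (t j)).det = η D := by rw [hη]
  rw [h1, hcoord η hηp D, ← hu0]
  unfold pForm
  rw [hTval]
  ring

end

end Pool.Agent.H614.BF
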