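import Pool.Agent.H614.BF.Plu

/-!
Base points of pluricanonical systems of images: the theorem.
-/

set_option autoImplicit false
set_option linter.unusedSectionVars false
set_option linter.overlappingInstances false

open FF Module Pool.Agent.W602.GT Pool.Agent.W603.LV Pool.Agent.W619.PQ Pool.Agent.Y172
open Pool.Agent.Y184.NT

namespace Pool.Agent.H614.BF

section

variable {K : Type} [Field K] [Algebra ℂ K] {n N : ℕ}

/-- `θ` is a section of `r K_W` at `p` -/
def PluriAt (r : ℕ) (y : Fin N → K) {κ : Type} [Field κ] [Algebra ℂ κ] (p : Fin N → κ)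
    (θ : (Fin n → Derivation ℂ K K) → K) : Prop :=
  IsPluri r θ ∧ ∀ P : Place ℂ K, Divisorial n P → Through P y p → RegAt P θ

/-- `η` generates `r K_W` at `p` -/
def PluriGen (r : ℕ) (y : Fin N → K) {κ : Type} [Field κ] [Algebra ℂ κ] (p : Fin N → κ)
    (η : (Fin n → Derivation ℂ K K) → K) : Prop :=
  PluriAt r y p η ∧ (∃ D, η D ≠ 0) ∧ ∀ θ : (Fin n → Derivation ℂ K K) → K, PluriAt r y p θ →
    ∃ (e : ℕ) (A B : MvPolynomial (Fin N) ℂ), A.IsHomogeneous e ∧ B.IsHomogeneous e ∧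
      MvPolynomial.aeval p B ≠ 0 ∧
      ∀ D, MvPolynomial.aeval y B * θ D = MvPolynomial.aeval y A * η D

/-- `ω` is a section of `K_V + (r - 1) f^* K_W - m H` -/
def AdjSection (L : Type) {K : Type} [Field K] [Algebra ℂ K] [Field L] [Algebra ℂ L]
    [Algebra L K] {n N : ℕ} (r m : ℕ) (x : Fin N → K)
    (ω : (Fin n → Derivation ℂ K K) → K) : Prop :=
  IsPluri r ω ∧ ∀ (f : Fin m → Fin N) (Q : Place ℂ K), Divisorial n Q →
    AdjAt L r Q (fun D => (∏ k, x (f k)) * ω D)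

/-- `K_V + (r - 1) f^* K_W - m H` is generated at `q` -/
def AdjGenerated (L : Type) {K : Type} [Field K] [Algebra ℂ K] [Field L] [Algebra ℂ L]
    [Algebra L K] {N : ℕ} (n r m : ℕ) (x : Fin N → K) {κ : Type} [Field κ] [Algebra ℂ κ]
    (q : Fin N → κ) : Prop :=
  ∀ Ω : (Fin n → Derivation ℂ K K) → K, IsPluri r Ω →
    (∀ Q : Place ℂ K, Divisorial n Q → Through Q x q → AdjAt L r Q Ω) →
    ∃ (e s : ℕ) (B : MvPolynomial (Fin N) ℂ) (A : Fin s → MvPolynomial (Fin N) ℂ)
      (ω : Fin s → (Fin n → Derivation ℂ K K) → K),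
      B.IsHomogeneous e ∧ MvPolynomial.aeval q B ≠ 0 ∧ (∀ i, (A i).IsHomogeneous (e + m)) ∧
      (∀ i, AdjSection L r m x (ω i)) ∧
      ∀ D, MvPolynomial.aeval x B * Ω D = ∑ i, MvPolynomial.aeval x (A i) * ω i D

end

section

variable {K L : Type} [Field K] [Algebra ℂ K] [Field L] [Algebra ℂ L] [Algebra L K]
  [IsScalarTower ℂ L K] [FiniteDimensional L K] {n m N M : ℕ}

/-- **`r K_W` is generated by global sections at `p`.** -/
theorem main [Algebra.EssFiniteType ℂ K] (hK : Algebra.trdeg ℂ K = n) {r : ℕ} {x : Fin N → K}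
    (hx : x ≠ 0) {y : Fin M → L} (hd : Module.finrank L K ≤ m + 1) {p : Fin M → ℂ}
    (hp : IsPoint y p) {η : (Fin n → Derivation ℂ L L) → L} (hη : PluriGen r y p η)
    (h : ∀ (κ : Type) [Field κ] [Algebra ℂ κ] (q : Fin N → κ), InGraph x y q p →
      Defined x y q ∧ AdjGenerated L n r m x q) :
    ∃ θ : (Fin n → Derivation ℂ L L) → L, IsPluri r θ ∧
      (∀ P : Place ℂ L, Divisorial n P → RegAt P θ) ∧ PluriGen r y p θ := by
  classical
  have hessL : Algebra.EssFiniteType ℂ L := Pool.Agent.TH466.QG.ess_below (K := K)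
  have hL : Algebra.trdeg ℂ L = n := Pool.Agent.Y184.NT.trdeg_below (K := K) hK
  obtain ⟨z, E, hz, hE⟩ := Pool.Agent.Y172.exists_crd (k := ℂ) (K := L) hL
  choose E' hE' using fun i => Pool.Agent.Y172.exists_lift (k := ℂ) (K := L) (L := K) hL (E i)
  have hcoord : ∀ (θ : (Fin n → Derivation ℂ L L) → L), IsPluri r θ → ∀ D,
      θ D = (Matrix.of fun i j => D i (z j)).det ^ r * θ E := fun θ hθ D =>
    pluri_coord hz hE hθ D
  have hu0' : η E ≠ 0 := by
    obtain ⟨D, hD⟩ := hη.2.1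
    intro h0
    apply hD
    rw [hcoord η hη.1.1 D, h0, mul_zero]
  obtain ⟨S0, hS0⟩ : ∃ S0 : Set K, S0 = {w | ∃ ω : (Fin n → Derivation ℂ K K) → K,
      AdjSection L r m x ω ∧ w = ω E'} := ⟨_, rfl⟩
  -- the global sections
  have hglob : ∀ w ∈ S0, ∀ f : Fin m → Fin N, ∃ θ : (Fin n → Derivation ℂ L L) → L,
      IsPluri r θ ∧ (∀ P : Place ℂ L, Divisorial n P → RegAt P θ) ∧
      θ E = Algebra.trace L K ((∏ k, x (f k)) * w) := by
    intro w hw f
    rw [hS0] at hw
    obtain ⟨ω, hω, rfl⟩ := hw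
    obtain ⟨W, hW⟩ : ∃ W : (Fin n → Derivation ℂ K K) → K,
      W = fun D => (∏ k, x (f k)) * ω D := ⟨_, rfl⟩
    have hWp : IsPluri r W := by
      intro A D
      rw [hW]
      change (∏ k, x (f k)) * ω (fun i => ∑ j, A i j • D j) = _
      rw [hω.1 A D]
      ring
    refine ⟨pForm r z (Algebra.trace L K (W E')), pForm_pluri r z _, fun P hP => ?_, ?_⟩
    · refine trace_regular hL hz hE hE' W hWp P hP fun Q e _ hQ => ?_
      rw [hW]
      exact hω.2 f Q hQ
    · rw [pForm_frame r _ hE, hW]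
  obtain ⟨s, hs, f, e, A, B, hA, hB, hBp, hAp, hAB⟩ := core hx hd hp hu0' S0
    (fun s hs f => by
      obtain ⟨θ, hθp, hθr, hθE⟩ := hglob s hs f
      obtain ⟨e, A, B, hA, hB, hBp, hAB⟩ := hη.2.2 θ ⟨hθp, fun P hP _ => hθr P hP⟩
      exact ⟨e, A, B, hA, hB, hBp, by rw [← hθE]; exact hAB E⟩)
    (fun κ _ _ q hq hgraph hpq => by
      obtain ⟨⟨d, F, hF, hyF, k0, hk0⟩, hgen⟩ := h κ q hgraph
      have hxe : ∃ j, x j ≠ 0 := by
        by_contra hc'
        push Not at hc'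
        exact hx (funext hc')
      have hk0x : MvPolynomial.aeval x (F k0) ≠ 0 := fun h0 => hk0 (hq.2 d _ (hF k0) h0)
      obtain ⟨e, s, B, A, ω, hB, hBq, hA, hω, hsum⟩ := hgen
        (pForm r (fun j => algebraMap L K (z j)) (algebraMap L K (η E)))
        (pForm_pluri r _ _) (fun Q hQ hQq => pull_adj hL hz hE hη.1.1 hQ fun P e hQP =>
          hη.1.2 P (divisorial_down hQP hQ)
            (through_down hq hxe hQP hQq hF hyF hk0 hk0x (hpq d F hF hyF) hp.1))
      refine ⟨e, s, B, A, fun i => ω i E', hB, hBq, hA, fun i => ?_, ?_⟩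
      · rw [hS0]
        exact ⟨ω i, hω i, rfl⟩
      · have h1 := hsum E'
        rwa [pForm_frame r _ (fun i j => by
          rw [hE', hE]
          split_ifs
          · exact map_one _
          · exact map_zero _)] at h1)
  obtain ⟨θ, hθp, hθr, hθE⟩ := hglob s hs f
  rw [← hθE] at hAB
  have hABD : ∀ D, MvPolynomial.aeval y B * θ D = MvPolynomial.aeval y A * η D := by
    intro D
    rw [hcoord θ hθp D, hcoord η hη.1.1 D]
    linear_combination (Matrix.of fun i j => D i (z j)).det ^ r * hAB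
  refine ⟨θ, hθp, hθr, ⟨hθp, fun P hP _ => hθr P hP⟩, ⟨E, ?_⟩, fun θ' hθ' => ?_⟩
  · intro h0
    rw [h0, mul_zero] at hAB
    exact mul_ne_zero (fun h4 => hAp (hp.2 e A hA h4)) hu0' hAB.symm
  · obtain ⟨e', A', B', hA', hB', hB'p, hAB'⟩ := hη.2.2 θ' hθ'
    refine ⟨e' + e, A' * B, B' * A, hA'.mul hB, hB'.mul hA, ?_, fun D => ?_⟩
    · rw [map_mul]
      exact mul_ne_zero hB'p hAp
    · rw [map_mul, map_mul]
      have h3 := hABD D
      have h4 := hAB' D
      linear_combination MvPolynomial.aeval y A * h4 - MvPolynomial.aeval y A' * h3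

end

end Pool.Agent.H614.BF
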