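import Pool.Agent.H614.BF.Core

/-!
Base points of pluricanonical systems of images.
-/

set_option autoImplicit false
set_option linter.unusedSectionVars false
set_option linter.overlappingInstances false

open FF Module Pool.Agent.W602.GT Pool.Agent.W603.LV Pool.Agent.W619.PQ Pool.Agent.Y172
open Pool.Agent.Y184.NT

namespace Pool.Agent.H614.BF

section

variable {K : Type} [Field K] [Algebra ℂ K] {n N : ℕ}

/-- the pluricanonical form with value `t` on the frame dual to `z` -/
noncomputable def pForm (r : ℕ) (z : Fin n → K) (t : K) (D : Fin n → Derivation ℂ K K) : K :=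
  (Matrix.of fun i j => D i (z j) : Matrix (Fin n) (Fin n) K).det ^ r * t

theorem pForm_pluri (r : ℕ) (z : Fin n → K) (t : K) : IsPluri r (pForm r z t) := by
  intro A D
  have h1 := trForm_pluri z (1 : K) A D
  rw [pow_one] at h1
  unfold trForm at h1
  rw [mul_one, mul_one] at h1
  unfold pForm
  rw [h1, mul_pow, mul_assoc]

theorem pForm_frame (r : ℕ) {z : Fin n → K} (t : K) {E : Fin n → Derivation ℂ K K}
    (hE : ∀ i j, E i (z j) = if i = j then 1 else 0) : pForm r z t E = t := by
  have h1 : (Matrix.of fun i j => E i (z j) : Matrix (Fin n) (Fin n) K) = 1 := by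
    ext i j
    rw [Matrix.of_apply, hE, Matrix.one_apply]
  rw [pForm, h1, Matrix.det_one, one_pow, one_mul]

end

section

variable {K L : Type} [Field K] [Algebra ℂ K] [Field L] [Algebra ℂ L] [Algebra L K]
  [IsScalarTower ℂ L K] [FiniteDimensional L K] {n N M : ℕ}

/-- `Ω` is at `Q` a section of `K_V + (r - 1) f^* K_W` -/
def AdjAt (L : Type) {K : Type} [Field K] [Algebra ℂ K] [Field L] [Algebra ℂ L] [Algebra L K]
    (r : ℕ) (Q : Place ℂ K) (Ω : (Fin n → Derivation ℂ K K) → K) : Prop :=
  ∀ (P : Place ℂ L) (e : ℕ), Over Q P e → ∀ D : Fin n → Derivation ℂ K K,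
    (∀ i, DerReg Q (D i)) → Ω D = 0 ∨ ((r : ℤ) - 1) * ((e : ℤ) - 1) ≤ Q.ord (Ω D)

/-- traces of sections of `K_V + (r - 1) f^* K_W` -/
theorem trace_regular [Algebra.EssFiniteType ℂ L] [Algebra.EssFiniteType ℂ K]
    (hn : Algebra.trdeg ℂ L = n) {z : Fin n → L} {E : Fin n → Derivation ℂ L L}
    (hz : IsTranscendenceBasis ℂ z) (hE : ∀ i j, E i (z j) = if i = j then 1 else 0)
    {E' : Fin n → Derivation ℂ K K}
    (hE' : ∀ i f, E' i (algebraMap L K f) = algebraMap L K (E i f)) {r : ℕ}
    (W : (Fin n → Derivation ℂ K K) → K) (hW : IsPluri r W) (P : Place ℂ L)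
    (hP : Divisorial n P)
    (hreg : ∀ (Q : Place ℂ K) (e : ℕ), Over Q P e → Divisorial n Q → AdjAt L r Q W) :
    RegAt P (pForm r z (Algebra.trace L K (W E'))) := by
  classical
  have hnK : Algebra.trdeg ℂ K = n := Pool.Agent.Y172.trdeg_up (K := L) hn
  intro G hG
  obtain ⟨yP, EP, i0, hl⟩ := exists_loc hn hP
  choose EP' hEP' using fun i => exists_lift (L := K) hn (EP i)
  obtain ⟨B, hB⟩ : ∃ B : Matrix (Fin n) (Fin n) L, B = Matrix.of fun i j => E i (yP j) :=
    ⟨_, rfl⟩
  have hC : (Matrix.of fun i j => G i (yP j) : Matrix (Fin n) (Fin n) L).det =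
      (Matrix.of fun i j => G i (z j) : Matrix (Fin n) (Fin n) L).det * B.det := by
    rw [← Matrix.det_mul]
    congr 1
    ext i j
    rw [Matrix.of_apply, Matrix.mul_apply, hB]
    have h1 := Pool.Agent.W73.PG.PULL.expand z hz E hE (G i)
    conv_lhs => rw [← h1]
    rw [sum_smul_apply]
    rfl
  have hWB : W E' = algebraMap L K (B.det ^ r) * W EP' := by
    have h1 := pluri_coord (hl.bas.algebraMap_comp (A := K)) (lift_dual hl.dual hEP') hW E'
    rw [h1]
    congr 1
    rw [hB, map_pow, RingHom.map_det]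
    congr 2
    ext i j
    rw [Matrix.of_apply, RingHom.mapMatrix_apply, Matrix.map_apply, Matrix.of_apply]
    exact hE' i (yP j)
  have hval : (Matrix.of fun i j => G i (z j) : Matrix (Fin n) (Fin n) L).det ^ r *
      Algebra.trace L K (W E') =
      (Matrix.of fun i j => G i (yP j) : Matrix (Fin n) (Fin n) L).det ^ r *
        Algebra.trace L K (W EP') := by
    rw [hC, hWB, ← Algebra.smul_def, map_smul, smul_eq_mul]
    ring
  change P.Reg ((Matrix.of fun i j => G i (z j) : Matrix (Fin n) (Fin n) L).det ^ r *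
      Algebra.trace L K (W E'))
  rw [hval]
  refine P.reg_mul ?_ ?_
  · have h9 : Ge P 0 (Matrix.of fun i j => G i (yP j) : Matrix (Fin n) (Fin n) L).det :=
      ge_det P _ _ (fun _ _ => 0) (fun a b => hG a _ (hl.reg b)) fun σ => by simp
    have h10 := h9.pow r
    rw [mul_zero] at h10
    exact h10
  · refine Pool.Agent.Y692.NT.trace_reg P (W EP') fun Q e hQ => ?_
    have hQd : Divisorial n Q := divisorial_up hQ hP
    have h1 := down_ge hnK hQ hQd hl hEP' hW (c := ((r : ℝ) - 1) * ((e : ℝ) - 1))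
      (fun G' hG' => by
        rcases hreg Q e hQ hQd P e hQ G' hG' with h | h
        · exact Or.inl h
        · right
          exact_mod_cast h)
    rcases h1 with h1 | h1
    · exact Or.inl h1
    · right
      have h2 : ((1 - e : ℤ) : ℝ) ≤ (Q.ord (W EP') : ℝ) := by
        push_cast
        nlinarith
      exact_mod_cast h2

/-- pull-backs of regular pluricanonical forms -/
theorem pull_adj [Algebra.EssFiniteType ℂ L] (hL : Algebra.trdeg ℂ L = n) {r : ℕ} {z : Fin n → L}
    {E : Fin n → Derivation ℂ L L} (hz : IsTranscendenceBasis ℂ z)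
    (hE : ∀ i j, E i (z j) = if i = j then 1 else 0) {η : (Fin n → Derivation ℂ L L) → L}
    (hη : IsPluri r η) {Q : Place ℂ K} (hQ : Divisorial n Q)
    (hreg : ∀ (P : Place ℂ L) (e : ℕ), Over Q P e → RegAt P η) :
    AdjAt L r Q (pForm r (fun j => algebraMap L K (z j)) (algebraMap L K (η E))) := by
  intro P e hQP D hD
  have hP : Divisorial n P := divisorial_down hQP hQ
  obtain ⟨yP, EP, i0, hl⟩ := exists_loc hL hP
  have h1 : P.Reg (η EP) := hreg P e hQP EP hl.pres
  have h2 := Pool.Agent.W73.PG.PULL.form_eq (L := K) z yP hz hl.bas E EP hE hl.dual η hη D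
  have h3 := Pool.Agent.Y172.pull_reg hQP hl hD (m := r) (ω := η) (b := 0) h1
  rw [← h2, mul_zero, add_zero] at h3
  have he : (1 : ℤ) ≤ e := by exact_mod_cast hQP.1
  have h4 : Ge Q (((r : ℤ) - 1) * ((e : ℤ) - 1)) _ := h3.mono (by nlinarith)
  exact h4

end

end Pool.Agent.H614.BF
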